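import Pool.Agent.Q177.EF.Crit

/-!
# Balls on which the vorticity is coherent
-/

set_option autoImplicit false

open MeasureTheory Set Topology Filter
open scoped NNReal ENNReal Pointwise

namespace Q177.EF

open Pool.Agent.H708R2.EulerSign Pool.Agent.H708R2.EulerTypeI Pool.Agent.GR.Flow
open Pool.Agent.W786.Dir Pool.Agent.W786.Max

variable {T : ℝ} {u : ℝ → V → V} {p : ℝ → V → ℝ}

lemma exists_vflow (h : IsC2Solution T u p) {t : ℝ} (ht : t ∈ Ioo 0 T) :
    ∃ Φ, VortexFlow (u t) Φ := by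
  have hfa := fld_at h ht
  obtain ⟨K, hK⟩ := hfa.lip
  obtain ⟨M, hM⟩ := hfa.bdd
  have hKb : LipschitzWith K (vort (u t)) := by
    intro x y
    have := hK (0, x) (0, y)
    simpa [Prod.edist_eq] using this
  choose g h0 h1 using fun z => exists_solution hKb (hM 0) z
  exact ⟨fun t z => g z t, fun z => h0 z, fun s z => h1 z s⟩

/-- The increment in a direction. -/
lemma dot_incr {f f' : ℝ → V} {e : V} {q a b : ℝ} (hab : a ≤ b)
    (hf : ∀ t, HasDerivAt f (f' t) t) (hfc : Continuous f')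
    (h : ∀ t ∈ Icc a b, q ≤ e ⬝ᵥ f' t) : (b - a) * q ≤ e ⬝ᵥ (f b - f a) := by
  have hc : Continuous fun t => e ⬝ᵥ f' t := by
    simp only [dotProduct]; fun_prop
  have h1 : ∫ t in a..b, e ⬝ᵥ f' t = e ⬝ᵥ f b - e ⬝ᵥ f a :=
    intervalIntegral.integral_eq_sub_of_hasDerivAt (fun t _ => dot_hasDerivAt e (hf t))
      (hc.intervalIntegrable _ _)
  rw [dotProduct_sub, ← h1]
  have h2 : ∫ _ in a..b, q = (b - a) * q := by
    rw [intervalIntegral.integral_const, smul_eq_mul]
  rw [← h2]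
  exact intervalIntegral.integral_mono_on hab (continuous_const.intervalIntegrable _ _)
    (hc.intervalIntegrable _ _) h

theorem coherent_of_ball (h : IsC2Solution T u p) {t : ℝ} (ht : t ∈ Ioo 0 T) {c κ ρ : ℝ}
    (hc : 0 < c) (hM : 0 < vmax (u t)) {x e : V} (he : nrm e = 1) (hρ : 0 < ρ)
    (hρπ : ρ ≤ Real.pi) (hκ : 45 / (8 * c) * κ ≤ ρ ^ (5 / 2 : ℝ))
    (hco : ∀ y, nrm (y - x) < ρ → c * vmax (u t) ≤ e ⬝ᵥ vort (u t) y) :
    Coherent (u t) c κ := by
  obtain ⟨Φ, hΦ⟩ := exists_vflow h ht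
  have hf := fld_at h ht
  set M := vmax (u t) with hMdef
  set s : ℝ := ρ / (3 * M) with hs
  have hs0 : 0 < s := by positivity
  have hsM : s * M = ρ / 3 := by rw [hs]; field_simp
  have hwc : Continuous (vort (u t)) := (vort_c1 (slice_two h ht)).continuous
  set E : Set V := Set.pi univ fun i => Ioo (x i - ρ / 3) (x i + ρ / 3) with hE
  have hπ := Real.pi_pos
  have hEm : MeasurableSet E := MeasurableSet.univ_pi fun _ => measurableSet_Ioo
  have hEz : E ⊆ cell (fun i => x i - Real.pi) := by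
    intro y hy i
    have h1 := hy i (mem_univ i)
    constructor
    · linarith [h1.1]
    · linarith [h1.2]
  have hvol : volume E = ENNReal.ofReal ((2 * ρ / 3) ^ 3) := by
    rw [hE, Real.volume_pi_Ioo]
    have : ∀ i : Fin 3, x i + ρ / 3 - (x i - ρ / 3) = 2 * ρ / 3 := fun i => by ring
    simp only [this, Finset.prod_const, Finset.card_univ, Fintype.card_fin]
    rw [ENNReal.ofReal_pow (by positivity)]
  have hm : (volume E).toReal = (2 * ρ / 3) ^ 3 := by
    rw [hvol, ENNReal.toReal_ofReal (by positivity)]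
  have hm0 : 0 < (volume E).toReal := by rw [hm]; positivity
  -- the displacement on `E`
  have hdisp : ∀ y ∈ E, c * (ρ / 3) ≤ nrm (Φ s y - y) := by
    intro y hy
    have hyx : nrm (y - x) ≤ 3 / 5 * ρ := by
      unfold nrm
      rw [Real.sqrt_le_iff]
      refine ⟨by positivity, ?_⟩
      rw [dotProduct, Fin.sum_univ_three]
      have hi : ∀ i, (y - x) i * (y - x) i ≤ (ρ / 3) ^ 2 := by
        intro i
        have h1 := hy i (mem_univ i)
        rw [Pi.sub_apply, ← sq]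
        refine sq_le_sq' ?_ ?_
        · linarith [h1.1]
        · linarith [h1.2]
      have := hi 0
      have := hi 1
      have := hi 2
      nlinarith
    have hstay : ∀ r ∈ Icc 0 s, c * M ≤ e ⬝ᵥ vort (u t) (Φ r y) := by
      intro r hr
      refine hco _ ?_
      have h1 := disp_le hwc hΦ.isFlowOf (le_vmax h.sol ⟨ht.1.le, ht.2⟩) r y
      rw [abs_of_nonneg hr.1] at h1
      have h2 : r * M ≤ ρ / 3 := by
        rw [← hsM]; exact mul_le_mul_of_nonneg_right hr.2 hM.le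
      have h3 : nrm (Φ r y - x) ≤ nrm (Φ r y - y) + nrm (y - x) := by
        have := nrm_add_le (Φ r y - y) (y - x)
        rwa [sub_add_sub_cancel] at this
      have h4 : nrm (Φ r y - y) ≤ ρ / 3 := h1.trans h2
      linarith
    have h1 := dot_incr (f := fun r => Φ r y) (f' := fun r => vort (u t) (Φ r y)) (e := e)
      (q := c * M) hs0.le (fun r => hΦ.2 r y)
      (hwc.comp (hΦ.isFlowOf.continuous y)) hstay
    simp only [hΦ.1] at h1
    have h2 := dot_le_nrm he (Φ s y - y)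
    have h3 : (s - 0) * (c * M) = c * (ρ / 3) := by rw [← hsM]; ring
    rw [h3] at h1
    linarith
  have hint : IntegrableOn (fun y => nrm (Φ s y - y)) E := by
    have hpb : Periodic3 (fun x => nrm (Φ s x - x)) := fun i x => by
      have := auto_disp_per hf hΦ.isFlowOf s i x
      simp only at this ⊢
      rw [this]
    exact per_intOn hpb (nrm_cont.comp ((auto_c1 hf hΦ.isFlowOf s).continuous.sub continuous_id))
      hEz
  have hI : c * (ρ / 3) * (volume E).toReal ≤ ∫ y in E, nrm (Φ s y - y) := by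
    have h1 : ∫ _ in E, c * (ρ / 3) ∂(volume : Measure V) ≤ ∫ y in E, nrm (Φ s y - y) :=
      setIntegral_mono_on (integrableOn_const (by rw [hvol]; exact ENNReal.ofReal_ne_top)) hint
        hEm hdisp
    rw [setIntegral_const, smul_eq_mul, Measure.real] at h1
    linarith
  refine ⟨s, Φ, _, E, hs0, hΦ, hEm, hEz, ?_, ?_, ?_⟩
  · rw [hvol]; exact ENNReal.ofReal_pos.2 (by positivity)
  · rw [le_div_iff₀ hm0, ← hMdef, hsM]
    exact hI
  · have hsm : 0 < Real.sqrt (volume E).toReal := Real.sqrt_pos.2 hm0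
    have h1 : c * (ρ / 3) ≤ (∫ y in E, nrm (Φ s y - y)) / (volume E).toReal := by
      rw [le_div_iff₀ hm0]; exact hI
    refine le_trans ?_ h1
    rw [div_le_iff₀ hsm, hm]
    -- `κ ≤ c ρ / 3 * sqrt ((2ρ/3)^3)`
    have h2 : Real.sqrt ((2 * ρ / 3) ^ 3) = Real.sqrt (8 / 27) * (ρ * Real.sqrt ρ) := by
      have e1 : (2 * ρ / 3) ^ 3 = 8 / 27 * (ρ ^ 2 * ρ) := by ring
      rw [e1, Real.sqrt_mul (by norm_num), Real.sqrt_mul (sq_nonneg ρ), Real.sqrt_sq hρ.le]
    have h3 : (8 / 15 : ℝ) ≤ Real.sqrt (8 / 27) := Real.le_sqrt_of_sq_le (by norm_num)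
    have h4 : ρ ^ (5 / 2 : ℝ) = ρ ^ 2 * Real.sqrt ρ := by
      have : (5 / 2 : ℝ) = (2 : ℕ) + 1 / 2 := by norm_num
      rw [this, Real.rpow_add hρ, Real.rpow_natCast, ← Real.sqrt_eq_rpow]
    rw [h4] at hκ
    rw [h2]
    have h5 : 0 < ρ ^ 2 * Real.sqrt ρ := by have := Real.sqrt_pos.2 hρ; positivity
    have h6 : κ ≤ 8 * c / 45 * (ρ ^ 2 * Real.sqrt ρ) := by
      have : 8 * c / 45 * (45 / (8 * c) * κ) = κ := by field_simp
      rw [← this]
      exact mul_le_mul_of_nonneg_left hκ (by positivity)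
    refine h6.trans ?_
    calc 8 * c / 45 * (ρ ^ 2 * Real.sqrt ρ) = c / 3 * (8 / 15) * (ρ ^ 2 * Real.sqrt ρ) := by ring
      _ ≤ c / 3 * Real.sqrt (8 / 27) * (ρ ^ 2 * Real.sqrt ρ) := by gcongr
      _ = c * (ρ / 3) * (Real.sqrt (8 / 27) * (ρ * Real.sqrt ρ)) := by ring

end Q177.EF
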