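import Pool.Agent.Q177.EF.Est

/-!
# Coherent vortex regions: the criterion
-/

set_option autoImplicit false

open MeasureTheory Set Topology Filter
open scoped NNReal ENNReal Pointwise

namespace Q177.EF

open Pool.Agent.H708R2.EulerSign Pool.Agent.H708R2.EulerTypeI Pool.Agent.GR.Flow
open Pool.Agent.W786.Dir Pool.Agent.W786.Max

/-- `Φ` is the flow of the vorticity field of `v`: the vortex lines with their parameter. -/
def VortexFlow (v : V → V) (Φ : ℝ → V → V) : Prop :=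
  (∀ x, Φ 0 x = x) ∧ ∀ s x, HasDerivAt (fun s => Φ s x) (vort v (Φ s x)) s

lemma VortexFlow.isFlowOf {v : V → V} {Φ : ℝ → V → V} (h : VortexFlow v Φ) :
    IsFlowOf (vort v) Φ := ⟨h.1, fun x t => h.2 t x⟩

/-- The maximal vorticity of `v`. -/
noncomputable def vmax (v : V → V) : ℝ := ⨆ x, nrm (vort v x)

lemma vmax_nonneg (v : V → V) : 0 ≤ vmax v := Real.iSup_nonneg fun _ => nrm_nonneg _

section

variable {T : ℝ} {u : ℝ → V → V} {p : ℝ → V → ℝ}

lemma le_vmax (h : IsClassicalSolution (Ico 0 T) u p) {t : ℝ} (ht : t ∈ Ico 0 T) (x : V) :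
    nrm (vort (u t) x) ≤ vmax (u t) := by
  obtain ⟨C, hC0, hC⟩ := vort_bound h ht.2
  refine le_ciSup (f := fun x => nrm (vort (u t) x)) ⟨C, ?_⟩ x
  rintro _ ⟨y, rfl⟩
  exact (hC t ⟨ht.1, le_rfl⟩ y).1

lemma vmax_bound (h : IsClassicalSolution (Ico 0 T) u p) {b : ℝ} (hb : b < T) :
    ∃ C : ℝ, 0 ≤ C ∧ ∀ t ∈ Icc 0 b, vmax (u t) ≤ C := by
  obtain ⟨C, hC0, hC⟩ := vort_bound h hb
  exact ⟨C, hC0, fun t ht => ciSup_le fun x => (hC t ht x).1⟩

lemma intOn_cont {f : V → ℝ} (hf : Continuous f) : IntegrableOn f Dom := by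
  have hcl : IntegrableOn f (closure Dom) :=
    hf.continuousOn.integrableOn_compact dom_bdd.isCompact_closure
  exact hcl.mono_set subset_closure

lemma nrm_sub_rev (x y : V) : nrm x ≤ nrm y + nrm (x - y) := by
  have h := nrm_add_le y (x - y)
  rwa [add_sub_cancel] at h

lemma fld_at (h : IsC2Solution T u p) {t : ℝ} (ht : t ∈ Ioo 0 T) : Fld fun _ => vort (u t) :=
  fld_vort (slice_two h ht) (h.sol.periodic_u t ⟨ht.1.le, ht.2⟩)

/-- The displacement of vortex lines in `L²` is Lipschitz continuous in time. -/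
theorem l2_est (h : IsC2Solution T u p) {a b : ℝ} (ha : 0 < a) (hab : a ≤ b) (hb : b < T)
    {Φa Φb : ℝ → V → V} (hΦa : VortexFlow (u a) Φa) (hΦb : VortexFlow (u b) Φb) (s : ℝ) :
    |Real.sqrt (∫ x in Dom, nrm (Φb s x - x) ^ 2) - Real.sqrt (∫ x in Dom, nrm (Φa s x - x) ^ 2)|
      ≤ 2 * (b - a) * Real.sqrt (En u 0) := by
  obtain ⟨Y, c, hY, hYc, hcc, hcp, hc0, hci, hle⟩ :=
    displacement h ha hab hb hΦa.isFlowOf hΦb.isFlowOf s
  have haI : a ∈ Ioo 0 T := ⟨ha, hab.trans_lt hb⟩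
  have hbI : b ∈ Ioo 0 T := ⟨ha.trans_le hab, hb⟩
  have hfa := fld_at h haI
  have hfb := fld_at h hbI
  have hca : ContDiff ℝ 1 (fun x => Φa s x - x) :=
    (auto_c1 hfa hΦa.isFlowOf s).sub contDiff_id
  have hcb : ContDiff ℝ 1 (fun x => Φb s x - x) :=
    (auto_c1 hfb hΦb.isFlowOf s).sub contDiff_id
  have hA := (hY (fun x => (Φa s x - x) ⬝ᵥ (Φa s x - x)) (dot_c1 hca) (fun i x => by
    have := auto_disp_per hfa hΦa.isFlowOf s i x
    simp only at this ⊢
    rw [this])).1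
  have hA' : ∫ x in Dom, nrm (Φa s (Y x) - Y x) ^ 2 = ∫ x in Dom, nrm (Φa s x - x) ^ 2 := by
    simp only [nrm_sq]
    exact hA
  have i1 : IntegrableOn (fun x => nrm (Φb s x - x) ^ 2) Dom :=
    intOn_cont ((nrm_cont.comp hcb.continuous).pow 2)
  have i2 : IntegrableOn (fun x => nrm (Φa s (Y x) - Y x) ^ 2) Dom :=
    intOn_cont ((nrm_cont.comp (hca.continuous.comp hYc.continuous)).pow 2)
  have i3 : IntegrableOn (fun x => c x ^ 2) Dom := intOn_cont (hcc.pow 2)
  have hC0 : 0 ≤ 2 * (b - a) * Real.sqrt (En u 0) := by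
    have : 0 ≤ b - a := by linarith
    positivity
  have q1 : 0 ≤ ∫ x in Dom, nrm (Φb s x - x) ^ 2 := integral_nonneg fun _ => sq_nonneg _
  have q2 : 0 ≤ ∫ x in Dom, nrm (Φa s (Y x) - Y x) ^ 2 := integral_nonneg fun _ => sq_nonneg _
  rw [← hA', abs_sub_le_iff]
  constructor
  · have := tri (a := fun x => nrm (Φb s x - x)) (b := fun x => nrm (Φa s (Y x) - Y x)) (c := c)
      dom_meas (fun x _ => nrm_nonneg _)
      (fun x _ => (nrm_sub_rev _ _).trans (add_le_add le_rfl (hle x)))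
      i1 i2 i3 (Real.sqrt_nonneg (∫ x in Dom, nrm (Φa s (Y x) - Y x) ^ 2)) hC0
      (Real.sq_sqrt q2).ge hci
    linarith
  · have := tri (a := fun x => nrm (Φa s (Y x) - Y x)) (b := fun x => nrm (Φb s x - x)) (c := c)
      dom_meas (fun x _ => nrm_nonneg _)
      (fun x _ => (nrm_sub_rev _ _).trans (add_le_add le_rfl (by
        rw [← nrm_neg, neg_sub]; exact hle x)))
      i2 i1 i3 (Real.sqrt_nonneg (∫ x in Dom, nrm (Φb s x - x) ^ 2)) hC0
      (Real.sq_sqrt q1).ge hci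
    linarith

/-- The mean displacement over a set. -/
theorem set_est (h : IsC2Solution T u p) {a b : ℝ} (ha : 0 < a) (hab : a ≤ b) (hb : b < T)
    {Φb : ℝ → V → V} (hΦb : VortexFlow (u b) Φb) (s : ℝ)
    {z : V} {E : Set V} (hEz : E ⊆ cell z) :
    ∫ x in E, nrm (Φb s x - x) ≤ |s| * vmax (u a) * (volume E).toReal
      + 2 * (b - a) * Real.sqrt (En u 0) * Real.sqrt (volume E).toReal := by
  have haI : a ∈ Ioo 0 T := ⟨ha, hab.trans_lt hb⟩
  have hbI : b ∈ Ioo 0 T := ⟨ha.trans_le hab, hb⟩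
  have hfa := fld_at h haI
  have hfb := fld_at h hbI
  obtain ⟨Φa, hΦa⟩ : ∃ Φa, IsFlowOf (vort (u a)) Φa := by
    obtain ⟨K, hK⟩ := hfa.lip
    obtain ⟨M, hM⟩ := hfa.bdd
    have hKb : LipschitzWith K (vort (u a)) := by
      intro x y
      have := hK (0, x) (0, y)
      simpa [Prod.edist_eq] using this
    choose g h0 h1 using fun z => exists_solution hKb (hM 0) z
    exact ⟨fun t z => g z t, fun z => h0 z, fun z t => h1 z t⟩
  obtain ⟨Y, c, hY, hYc, hcc, hcp, hc0, hci, hle⟩ :=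
    displacement h ha hab hb hΦa hΦb.isFlowOf s
  have hcb : Continuous (fun x => Φb s x - x) :=
    (auto_c1 hfb hΦb.isFlowOf s).continuous.sub continuous_id
  have hpb : Periodic3 (fun x => nrm (Φb s x - x)) := fun i x => by
    have := auto_disp_per hfb hΦb.isFlowOf s i x
    simp only at this ⊢
    rw [this]
  have hvol : volume E ≠ ∞ := ((measure_mono hEz).trans_lt (cell_lt_top z)).ne
  have i1 : IntegrableOn (fun x => nrm (Φb s x - x)) E :=
    per_intOn hpb (nrm_cont.comp hcb) hEz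
  have i2 : IntegrableOn c E := per_intOn hcp hcc hEz
  have hcp2 : Periodic3 fun x => c x ^ 2 := fun i x => by
    have := hcp i x
    simp only
    rw [this]
  have i3 : IntegrableOn (fun x => c x ^ 2) E := per_intOn hcp2 (hcc.pow 2) hEz
  have i4 : IntegrableOn (fun x => c x ^ 2) (cell z) := per_intOn hcp2 (hcc.pow 2) subset_rfl
  have hC0 : 0 ≤ 2 * (b - a) * Real.sqrt (En u 0) := by
    have : 0 ≤ b - a := by linarith
    positivity
  have hci' : ∫ x in E, c x ^ 2 ≤ (2 * (b - a) * Real.sqrt (En u 0)) ^ 2 := by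
    have h1 : ∫ x in E, c x ^ 2 ≤ ∫ x in cell z, c x ^ 2 :=
      setIntegral_mono_set i4 (Filter.Eventually.of_forall fun _ => sq_nonneg _)
        (LE.le.eventuallyLE hEz)
    rw [integral_cell hcp2] at h1
    exact h1.trans hci
  have h2 := cs_set hC0 hvol i2 i3 hci'
  have hconst : IntegrableOn (fun _ : V => |s| * vmax (u a)) E := integrableOn_const hvol
  have h3 : ∫ x in E, nrm (Φb s x - x) ≤ ∫ x in E, (|s| * vmax (u a) + c x) := by
    refine integral_mono i1 (hconst.add i2) fun x => ?_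
    have h4 := nrm_sub_rev (Φb s x - x) (Φa s (Y x) - Y x)
    have h5 := disp_le (vort_c1 (slice_two h haI)).continuous hΦa
      (le_vmax h.sol ⟨haI.1.le, haI.2⟩) s (Y x)
    have h6 := hle x
    simp only
    linarith
  rw [integral_add hconst i2, setIntegral_const, smul_eq_mul, Measure.real] at h3
  linarith

end

/-! ### The iteration -/

lemma iter {M : ℝ → ℝ} {T lam μ : ℝ} (hT : 0 < T) (hlam : 1 < lam) (hμ : 0 < μ) (hμl : μ < lam)
    (hM0 : ∀ t, 0 ≤ M t) (hbd : ∀ b < T, ∃ C, 0 ≤ C ∧ ∀ t ∈ Icc 0 b, M t ≤ C)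
    (hstep : ∀ᶠ t in 𝓝[<] T, M t ≤ max (μ * M (T - lam * (T - t))) ((T - t) ^ (-(1 / 2) : ℝ))) :
    ∃ C a : ℝ, a < 1 ∧ 0 ≤ C ∧ ∃ t₀ ∈ Ioo 0 T, ∀ t ∈ Ico t₀ T, M t ≤ C * (T - t) ^ (-a) := by
  have hlam0 : 0 < lam := by linarith
  set a : ℝ := max (1 / 2) (Real.logb lam μ) with ha
  have ha1 : a < 1 := by
    refine max_lt (by norm_num) ?_
    rw [Real.logb_lt_iff_lt_rpow hlam hμ, Real.rpow_one]
    exact hμl
  have ha2 : 1 / 2 ≤ a := le_max_left _ _
  have hμa : μ ≤ lam ^ a := by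
    rw [← Real.logb_le_iff_le_rpow hlam hμ]
    exact le_max_right _ _
  obtain ⟨δ, hδ, hδ'⟩ : ∃ δ > 0, ∀ t, T - δ < t → t < T →
      M t ≤ max (μ * M (T - lam * (T - t))) ((T - t) ^ (-(1 / 2) : ℝ)) := by
    rw [eventually_nhdsWithin_iff, Metric.eventually_nhds_iff] at hstep
    obtain ⟨δ, hδ, h⟩ := hstep
    refine ⟨δ, hδ, fun t h1 h2 => h ?_ h2⟩
    rw [Real.dist_eq, abs_lt]
    constructor <;> linarith
  set ε₁ : ℝ := min (δ / 2) (min 1 (T / (2 * lam))) with hε₁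
  have hε₁0 : 0 < ε₁ := by positivity
  have e1 : ε₁ ≤ δ / 2 := min_le_left _ _
  have e2 : ε₁ ≤ 1 := (min_le_right _ _).trans (min_le_left _ _)
  have e3 : lam * ε₁ ≤ T / 2 := by
    have : ε₁ ≤ T / (2 * lam) := (min_le_right _ _).trans (min_le_right _ _)
    calc lam * ε₁ ≤ lam * (T / (2 * lam)) := by gcongr
      _ = T / 2 := by field_simp
  have e4 : ε₁ < T := by nlinarith
  obtain ⟨C₀, hC₀, hC₀'⟩ := hbd (T - ε₁) (by linarith)
  set B : ℝ := max 1 ((lam * ε₁) ^ a * C₀) with hB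
  have hB0 : 0 ≤ B := zero_le_one.trans (le_max_left _ _)
  have key : ∀ n : ℕ, ∀ ε : ℝ, 0 < ε → ε ≤ ε₁ → ε₁ < lam ^ n * ε → ε ^ a * M (T - ε) ≤ B := by
    intro n
    induction n with
    | zero => intro ε _ h1 h2; simp at h2; linarith
    | succ n ih =>
      intro ε h0 h1 h2
      have h3 := hδ' (T - ε) (by linarith) (by linarith)
      rw [sub_sub_cancel] at h3
      have hεa : 0 < ε ^ a := Real.rpow_pos_of_pos h0 a
      have h4 : ε ^ a * M (T - ε) ≤ max ((lam * ε) ^ a * M (T - lam * ε)) 1 := by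
        rcases le_max_iff.1 h3 with h5 | h5
        · refine le_trans ?_ (le_max_left _ _)
          rw [Real.mul_rpow hlam0.le h0.le]
          calc ε ^ a * M (T - ε) ≤ ε ^ a * (μ * M (T - lam * ε)) := by gcongr
            _ ≤ ε ^ a * (lam ^ a * M (T - lam * ε)) := by
              gcongr
              exact hM0 _
            _ = lam ^ a * ε ^ a * M (T - lam * ε) := by ring
        · refine le_trans ?_ (le_max_right _ _)
          calc ε ^ a * M (T - ε) ≤ ε ^ a * ε ^ (-(1 / 2) : ℝ) := by gcongr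
            _ = ε ^ (a - 1 / 2) := by rw [← Real.rpow_add h0]; ring_nf
            _ ≤ 1 := Real.rpow_le_one h0.le (h1.trans e2) (by linarith)
      refine h4.trans (max_le ?_ (le_max_left _ _))
      rcases le_or_gt (lam * ε) ε₁ with h5 | h5
      · refine ih (lam * ε) (by positivity) h5 ?_
        rw [pow_succ, mul_assoc] at h2
        exact h2
      · refine le_trans ?_ (le_max_right _ _)
        have h6 : lam * ε ≤ lam * ε₁ := by gcongr
        have h7 : M (T - lam * ε) ≤ C₀ := hC₀' _ ⟨by linarith, by linarith⟩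
        have h8 : (lam * ε) ^ a ≤ (lam * ε₁) ^ a :=
          Real.rpow_le_rpow (by positivity) h6 (by linarith)
        exact mul_le_mul h8 h7 (hM0 _) (by positivity)
  refine ⟨B, a, ha1, hB0, T - ε₁, ⟨by linarith, by linarith⟩, fun t ht => ?_⟩
  have hε : 0 < T - t := by linarith [ht.2]
  have hε' : T - t ≤ ε₁ := by linarith [ht.1]
  obtain ⟨n, hn⟩ := pow_unbounded_of_one_lt (ε₁ / (T - t)) hlam
  rw [div_lt_iff₀ hε] at hn
  have h1 := key n (T - t) hε hε' hn
  rw [sub_sub_cancel] at h1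
  have h2 : 0 < (T - t) ^ a := Real.rpow_pos_of_pos hε a
  rw [Real.rpow_neg hε.le, ← div_eq_mul_inv, le_div_iff₀ h2]
  linarith

/-- A bound by `C (T - t)^(-a)`, `a < 1`, gives a finite Beale-Kato-Majda integral. -/
lemma bkm_of_pow {T : ℝ} {u : ℝ → V → V} {p : ℝ → V → ℝ}
    (h : IsClassicalSolution (Ico 0 T) u p) {t₀ : ℝ} (ht₀ : t₀ ∈ Ioo 0 T) {a C : ℝ}
    (ha : a < 1) (hC : ∀ t ∈ Ico t₀ T, ∀ x, nrm (vort (u t) x) ≤ C * (T - t) ^ (-a)) :
    BKMFinite T u := by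
  obtain ⟨M, hM0, hM⟩ := vort_bound h ht₀.2
  have hint : IntegrableOn (fun t => C * (T - t) ^ (-a)) (Ioo t₀ T) := by
    have h1 : IntervalIntegrable (fun x : ℝ => x ^ (-a)) volume (T - t₀) (T - T) :=
      intervalIntegral.intervalIntegrable_rpow' (by linarith)
    have h2 := h1.comp_sub_left T
    rw [sub_sub_cancel, sub_sub_cancel] at h2
    have h3 := (intervalIntegrable_iff_integrableOn_Ioo_of_le ht₀.2.le).1 h2
    exact h3.const_mul C
  have hfin2 : ∫⁻ t in Ico t₀ T, ⨆ x, ENNReal.ofReal (nrm (vort (u t) x)) < ∞ := by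
    have h1 : ∫⁻ t in Ico t₀ T, ⨆ x, ENNReal.ofReal (nrm (vort (u t) x))
        ≤ ∫⁻ t in Ico t₀ T, ENNReal.ofReal (C * (T - t) ^ (-a)) := by
      refine setLIntegral_mono' measurableSet_Ico fun t ht => ?_
      exact iSup_le fun x => ENNReal.ofReal_le_ofReal (hC t ht x)
    refine h1.trans_lt ?_
    have h2 : IntegrableOn (fun t => C * (T - t) ^ (-a)) (Ico t₀ T) := by
      rw [integrableOn_Ico_iff_integrableOn_Ioo]
      exact hint
    exact h2.lintegral_lt_top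
  have hfin1 : ∫⁻ t in Ioo 0 t₀, ⨆ x, ENNReal.ofReal (nrm (vort (u t) x)) < ∞ := by
    have h1 : ∫⁻ t in Ioo 0 t₀, ⨆ x, ENNReal.ofReal (nrm (vort (u t) x))
        ≤ ∫⁻ _ in Ioo 0 t₀, ENNReal.ofReal M := by
      refine setLIntegral_mono' measurableSet_Ioo fun t ht => ?_
      exact iSup_le fun x => ENNReal.ofReal_le_ofReal (hM t ⟨ht.1.le, ht.2.le⟩ x).1
    refine h1.trans_lt ?_
    rw [setLIntegral_const, Real.volume_Ioo]
    exact ENNReal.mul_lt_top ENNReal.ofReal_lt_top ENNReal.ofReal_lt_top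
  unfold BKMFinite
  rw [← Ioo_union_Ico_eq_Ioo ht₀.1 ht₀.2.le]
  exact (lintegral_union_le _ _ _).trans_lt (ENNReal.add_lt_top.2 ⟨hfin1, hfin2⟩)

/-- There is a set `E` of positive measure in a period cell such that the mean of the displacement
along the vortex lines with the parameter `s` over `E` is at least `c` times its greatest possible
value `s sup |ω|`, and at least `κ / |E|^(1/2)`. -/
def Coherent (v : V → V) (c κ : ℝ) : Prop :=
  ∃ (s : ℝ) (Φ : ℝ → V → V) (z : V) (E : Set V), 0 < s ∧ VortexFlow v Φ ∧ MeasurableSet E ∧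
    E ⊆ cell z ∧ 0 < volume E ∧
    c * (s * vmax v) ≤ (∫ x in E, nrm (Φ s x - x)) / (volume E).toReal ∧
    κ / Real.sqrt (volume E).toReal ≤ (∫ x in E, nrm (Φ s x - x)) / (volume E).toReal

theorem coherent_step {T : ℝ} {u : ℝ → V → V} {p : ℝ → V → ℝ} (h : IsC2Solution T u p) {c : ℝ}
    (hc : 0 < c) (hc1 : c ≤ 1) {t : ℝ} (ht : t < T) (ht' : 0 < T - 2 / c * (T - t))
    (hco : Coherent (u t) c (8 / c * Real.sqrt (En u 0) * (T - t))) :
    vmax (u t) ≤ 4 / (c * (2 + c)) * vmax (u (T - 2 / c * (T - t))) := by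
  obtain ⟨s, Φ, z, E, hs, hΦ, hE, hEz, hE0, h1, h2⟩ := hco
  set lam : ℝ := 2 / c with hlam
  have hl2 : 2 ≤ lam := by rw [hlam, le_div_iff₀ hc]; linarith
  have hTt : 0 < T - t := by linarith
  have hab : T - lam * (T - t) ≤ t := by nlinarith
  have h3 := set_est h ht' hab ht hΦ s hEz
  have hvol : volume E ≠ ∞ := ((measure_mono hEz).trans_lt (cell_lt_top z)).ne
  set m : ℝ := (volume E).toReal with hm
  have hm0 : 0 < m := ENNReal.toReal_pos hE0.ne' hvol
  set I : ℝ := ∫ x in E, nrm (Φ s x - x) with hI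
  set M := vmax (u t)
  set M₁ := vmax (u (T - lam * (T - t)))
  set e : ℝ := Real.sqrt (En u 0)
  rw [le_div_iff₀ hm0] at h1
  have hsm : 0 < Real.sqrt m := Real.sqrt_pos.2 hm0
  have hsm2 : Real.sqrt m * Real.sqrt m = m := Real.mul_self_sqrt hm0.le
  have h2' : 8 / c * e * (T - t) * Real.sqrt m ≤ I := by
    rw [div_le_div_iff₀ hsm hm0] at h2
    have : (8 / c * e * (T - t) * Real.sqrt m) * Real.sqrt m ≤ I * Real.sqrt m := by
      calc (8 / c * e * (T - t) * Real.sqrt m) * Real.sqrt m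
          = 8 / c * e * (T - t) * m := by rw [mul_assoc, hsm2]
        _ ≤ I * Real.sqrt m := h2
    exact le_of_mul_le_mul_right this hsm
  rw [abs_of_pos hs] at h3
  have e1 : t - (T - lam * (T - t)) = (lam - 1) * (T - t) := by ring
  rw [e1] at h3
  have h4 : 2 * ((lam - 1) * (T - t)) * e * Real.sqrt m ≤ (1 / 2 - c / 4) * I := by
    have h5 : 2 * ((lam - 1) * (T - t)) * e * Real.sqrt m
        = (1 / 2 - c / 4) * (8 / c * e * (T - t) * Real.sqrt m) := by
      rw [hlam]; field_simp; ring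
    rw [h5]
    exact mul_le_mul_of_nonneg_left h2' (by linarith)
  have h5 : (1 / 2 + c / 4) * I ≤ s * M₁ * m := by linarith
  have h6 : (1 / 2 + c / 4) * (c * (s * M) * m) ≤ s * M₁ * m :=
    (mul_le_mul_of_nonneg_left h1 (by positivity)).trans h5
  have h7 : (1 / 2 + c / 4) * c * M ≤ M₁ := by
    have : ((1 / 2 + c / 4) * c * M) * (s * m) ≤ M₁ * (s * m) := by
      calc ((1 / 2 + c / 4) * c * M) * (s * m) = (1 / 2 + c / 4) * (c * (s * M) * m) := by ring
        _ ≤ s * M₁ * m := h6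
        _ = M₁ * (s * m) := by ring
    exact le_of_mul_le_mul_right this (by positivity)
  rw [div_mul_eq_mul_div, le_div_iff₀ (by positivity)]
  linarith

/-- The criterion. -/
theorem criterion {T : ℝ} {u : ℝ → V → V} {p : ℝ → V → ℝ} (hT : 0 < T) (h : IsC2Solution T u p)
    {c : ℝ} (hc : 0 < c) (hc1 : c ≤ 1)
    (hyp : ∀ᶠ t in 𝓝[<] T, (T - t) ^ (-(1 / 2) : ℝ) < vmax (u t) →
      Coherent (u t) c (8 / c * Real.sqrt (En u 0) * (T - t))) :
    (∃ C a : ℝ, a < 1 ∧ ∀ᶠ t in 𝓝[<] T, vmax (u t) ≤ C * (T - t) ^ (-a)) ∧ BKMFinite T u := by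
  have hlam : 1 < 2 / c := by rw [lt_div_iff₀ hc]; linarith
  have hμl : 4 / (c * (2 + c)) < 2 / c := by
    rw [div_lt_div_iff₀ (by positivity) hc]
    nlinarith [mul_pos hc hc]
  have hev : ∀ᶠ t in 𝓝[<] T, 0 < T - 2 / c * (T - t) := by
    have h1 : Tendsto (fun t : ℝ => T - 2 / c * (T - t)) (𝓝 T) (𝓝 (T - 2 / c * (T - T))) :=
      (by fun_prop : Continuous fun t : ℝ => T - 2 / c * (T - t)).tendsto T
    rw [sub_self, mul_zero, sub_zero] at h1
    exact nhdsWithin_le_nhds (h1.eventually (lt_mem_nhds hT))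
  obtain ⟨C, a, ha, hC0, t₀, ht₀, hb⟩ := iter (M := fun t => vmax (u t)) (T := T)
    (lam := 2 / c) (μ := 4 / (c * (2 + c))) hT hlam (by positivity) hμl
    (fun t => vmax_nonneg _) (fun b hb => vmax_bound h.sol hb) (by
      filter_upwards [hyp, hev, self_mem_nhdsWithin] with t h1 h2 h3
      rcases le_or_gt (vmax (u t)) ((T - t) ^ (-(1 / 2) : ℝ)) with h4 | h4
      · exact le_max_of_le_right h4
      · exact le_max_of_le_left (coherent_step h hc hc1 h3 h2 (h1 h4)))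
  refine ⟨⟨C, a, ha, ?_⟩, bkm_of_pow (C := C) h.sol ht₀ ha fun t ht x => ?_⟩
  · filter_upwards [Ico_mem_nhdsLT ht₀.2] with t ht
    exact hb t ht
  · exact (le_vmax h.sol ⟨ht₀.1.le.trans ht.1, ht.2⟩ x).trans (hb t ht)

end Q177.EF
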