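import Pool.Agent.Q177.EF.Tools

/-!
# The displacement along vortex lines: estimates by the energy
-/

set_option autoImplicit false

open MeasureTheory Set Topology Filter
open scoped NNReal ENNReal Pointwise

namespace Q177.EF

open Pool.Agent.H708R2.EulerSign Pool.Agent.H708R2.EulerTypeI Pool.Agent.GR.Flow
open Pool.Agent.W786.Dir

/-- The energy at the time `t`. -/
noncomputable def En (u : ℝ → V → V) (t : ℝ) : ℝ := ∫ x in Dom, u t x ⬝ᵥ u t x

lemma sq3_dot (y : V) : sq3 y = y ⬝ᵥ y := by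
  unfold sq3
  rw [dotProduct]
  exact Finset.sum_congr rfl fun i _ => by ring

lemma dot_c1 {v : V → V} (hv : ContDiff ℝ 1 v) : ContDiff ℝ 1 fun x => v x ⬝ᵥ v x := by
  have h := (sq3_contDiff (n := 1)).comp hv
  have e : (fun x => v x ⬝ᵥ v x) = sq3 ∘ v := by ext1 x; rw [Function.comp_apply, sq3_dot]
  rw [e]; exact h

section

variable {T : ℝ} {u : ℝ → V → V} {p : ℝ → V → ℝ}

lemma En_eq_en (t : ℝ) : En u t = en u (fun _ _ => 0) t := by
  unfold En en
  simp only [sub_zero, sq3_dot]

lemma En_nonneg (t : ℝ) : 0 ≤ En u t := integral_nonneg fun _ => dot_self_nonneg _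

/-- The conservation of the energy. -/
theorem energy_const (h : IsClassicalSolution (Ico 0 T) u p) {t : ℝ} (ht : t ∈ Ico 0 T) :
    En u t = En u 0 := by
  set z : ℝ → V → V := fun _ _ => 0 with hz
  have hzc : ContDiff ℝ 1 (fun q : ℝ × V => z q.1 q.2) := contDiff_const
  have hcont := en_continuousOn h hzc
  have hder : ∀ s ∈ Ioo 0 T, HasDerivAt (en u z) 0 s := by
    intro s hs
    have h1 := en_hasDerivAt h hzc hs
    have h2 := en_deriv_le h hzc (fun t i x => rfl) (fun t x => divergence_zero x)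
      (fun t x i => by simp [hz]) (K := 0) (fun t ht x i j => by simp [hz, grad]) hs
    have h3 : ∫ x in Dom, dS u z s x = 0 := by
      have : |∫ x in Dom, dS u z s x| ≤ 0 := by simpa using h2
      exact abs_eq_zero.1 (le_antisymm this (abs_nonneg _))
    rwa [h3] at h1
  rw [En_eq_en, En_eq_en]
  have hconv : Convex ℝ (Icc (0 : ℝ) t) := convex_Icc 0 t
  have hc : ContinuousOn (en u z) (Icc 0 t) :=
    hcont.mono fun s hs => ⟨hs.1, hs.2.trans_lt ht.2⟩
  have hsub : ∀ s ∈ interior (Icc 0 t), s ∈ Ioo 0 T := by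
    intro s hs
    rw [interior_Icc] at hs
    exact ⟨hs.1, hs.2.trans ht.2⟩
  have h1 : AntitoneOn (en u z) (Icc 0 t) :=
    antitoneOn_of_deriv_nonpos hconv hc
      (fun s hs => (hder s (hsub s hs)).differentiableAt.differentiableWithinAt)
      (fun s hs => (hder s (hsub s hs)).deriv.le)
  have h2 : MonotoneOn (en u z) (Icc 0 t) :=
    monotoneOn_of_deriv_nonneg hconv hc
      (fun s hs => (hder s (hsub s hs)).differentiableAt.differentiableWithinAt)
      (fun s hs => (hder s (hsub s hs)).deriv.ge)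
  exact le_antisymm (h1 (left_mem_Icc.2 ht.1) (right_mem_Icc.2 ht.1) ht.1)
    (h2 (left_mem_Icc.2 ht.1) (right_mem_Icc.2 ht.1) ht.1)

/-- The space-time flow of an autonomous field. -/
lemma auto_flow {w : V → V} {Φ : ℝ → V → V} (hΦ : IsFlowOf w Φ) :
    IsFlowOf (stf fun _ => w) (fun r z => (z.1 + r, Φ r z.2)) := by
  refine ⟨fun z => ?_, fun z t => ?_⟩
  · ext1
    · simp
    · exact hΦ.zero _
  · exact ((hasDerivAt_id t).const_add z.1).prodMk (hΦ.deriv z.2 t)

lemma auto_X {Φ : ℝ → V → V} (s : ℝ) :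
    X (fun r (z : ℝ × V) => (z.1 + r, Φ r z.2)) 0 s = Φ s := by
  ext1 x
  unfold X
  simp

variable {w : V → V} {Φ : ℝ → V → V}

lemma auto_c1 (hw : Fld fun _ => w) (hΦ : IsFlowOf w Φ) (s : ℝ) : ContDiff ℝ 1 (Φ s) := by
  have h := X_c1' hw (auto_flow hΦ) 0 s
  rwa [auto_X] at h

lemma auto_joint (hw : Fld fun _ => w) (hΦ : IsFlowOf w Φ) :
    ContDiff ℝ 1 (fun q : ℝ × V => Φ q.1 q.2) := by
  have h := (X_c1 hw (auto_flow hΦ)).comp (f := fun q : ℝ × V => ((0, q.1), q.2)) (by fun_prop)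
  have e : (fun q : ℝ × V => Φ q.1 q.2) = (fun q : (ℝ × ℝ) × V =>
      X (fun r (z : ℝ × V) => (z.1 + r, Φ r z.2)) q.1.1 q.1.2 q.2) ∘
      (fun q : ℝ × V => (((0 : ℝ), q.1), q.2)) := by
    ext1 q
    rw [Function.comp_apply]
    simp only
    rw [auto_X]
  rw [e]; exact h

lemma auto_shift (hw : Fld fun _ => w) (hΦ : IsFlowOf w Φ) (s : ℝ) (i : Fin 3) (x : V) :
    Φ s (x + Pi.single i (2 * Real.pi)) = Φ s x + Pi.single i (2 * Real.pi) := by
  have h := X_shift hw (auto_flow hΦ) 0 s i x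
  rwa [auto_X] at h

lemma auto_per (hw : Fld fun _ => w) (hΦ : IsFlowOf w Φ) {F : Type*} {f : V → F}
    (hf : Periodic3 f) (s : ℝ) : Periodic3 (fun x => f (Φ s x)) := by
  intro i x
  simp only
  rw [auto_shift hw hΦ, hf]

lemma auto_disp_per (hw : Fld fun _ => w) (hΦ : IsFlowOf w Φ) (s : ℝ) :
    Periodic3 (fun x => Φ s x - x) := by
  intro i x
  simp only
  rw [auto_shift hw hΦ]
  abel

lemma auto_integral (hw : Fld fun _ => w) (hΦ : IsFlowOf w Φ) {f : V → ℝ}
    (hf : ContDiff ℝ 1 f) (hp : Periodic3 f) (s : ℝ) :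
    ∫ x in Dom, f (Φ s x) = ∫ x in Dom, f x := by
  have h := integral_comp hw (auto_flow hΦ) hf hp 0 s
  rwa [auto_X] at h

/-- Points move along the flow lines with at most the maximal speed. -/
lemma disp_le (hwc : Continuous w) (hΦ : IsFlowOf w Φ) {M : ℝ} (hM : ∀ x, nrm (w x) ≤ M)
    (s : ℝ) (x : V) : nrm (Φ s x - x) ≤ |s| * M := by
  have hc : Continuous fun r => w (Φ r x) := hwc.comp (hΦ.continuous x)
  rcases le_total 0 s with hs | hs
  · have h1 := nrm_incr (q := fun _ => M) hs (fun t => hΦ.deriv x t) hc continuous_const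
      (fun t _ => hM _)
    rw [hΦ.zero, intervalIntegral.integral_const, sub_zero, smul_eq_mul] at h1
    rwa [abs_of_nonneg hs]
  · have h1 := nrm_incr (q := fun _ => M) hs (fun t => hΦ.deriv x t) hc continuous_const
      (fun t _ => hM _)
    rw [hΦ.zero, intervalIntegral.integral_const, zero_sub, smul_eq_mul] at h1
    rw [abs_of_nonpos hs]
    rw [← nrm_neg, neg_sub]
    exact h1

end

/-! ### The two estimates -/

section

variable {T : ℝ} {u : ℝ → V → V} {p : ℝ → V → ℝ} {a b : ℝ}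

/-- All that is needed about the displacement at two times `a ≤ b`: a periodic `C¹` volume preserving
map `Y` (the flow from `b` back to `a`) and a continuous periodic function `c` with
`∫ c² ≤ 4 (b - a)² E` and `|(Φb s x - x) - (Φa s (Y x) - Y x)| ≤ c x`. -/
theorem displacement (h : IsC2Solution T u p) (ha : 0 < a) (hab : a ≤ b) (hb : b < T)
    {Φa Φb : ℝ → V → V} (hΦa : IsFlowOf (vort (u a)) Φa) (hΦb : IsFlowOf (vort (u b)) Φb)
    (s : ℝ) :
    ∃ (Y : V → V) (c : V → ℝ), (∀ f : V → ℝ, ContDiff ℝ 1 f → Periodic3 f →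
        (∫ x in Dom, f (Y x) = ∫ x in Dom, f x) ∧ Periodic3 (fun x => f (Y x))) ∧
      ContDiff ℝ 1 Y ∧ Continuous c ∧ Periodic3 c ∧ (∀ x, 0 ≤ c x) ∧
      (∫ x in Dom, c x ^ 2 ≤ (2 * (b - a) * Real.sqrt (En u 0)) ^ 2) ∧
      ∀ x, nrm ((Φb s x - x) - (Φa s (Y x) - Y x)) ≤ c x := by
  obtain ⟨B, hB, hBu⟩ := exists_cut h ha hab hb
  obtain ⟨g, hg⟩ := exists_flow hB
  have hbI : b ∈ Ioo 0 T := ⟨ha.trans_le hab, hb⟩
  have hfb := fld_vort (slice_two h hbI) (h.sol.periodic_u b ⟨hbI.1.le, hbI.2⟩)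
  -- the moving points
  have hXj := X_c1 hB hg
  have hN : ∀ y : V → V, Continuous y → Continuous (fun q : ℝ × V => B q.1 (X g b q.1 (y q.2))) :=
    fun y hy => by
      have h1 : Continuous (fun q : ℝ × V => X g b q.1 (y q.2)) :=
        hXj.continuous.comp (f := fun q : ℝ × V => ((b, q.1), y q.2)) (by fun_prop)
      exact hB.c1.continuous.comp (f := fun q : ℝ × V => (q.1, X g b q.1 (y q.2)))
        (continuous_fst.prodMk h1)
  have hΦbc : Continuous (Φb s) := (auto_c1 hfb hΦb s).continuous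
  set N1 : ℝ × V → ℝ := fun q => nrm (B q.1 (X g b q.1 q.2)) with hN1
  set N2 : ℝ × V → ℝ := fun q => nrm (B q.1 (X g b q.1 (Φb s q.2))) with hN2
  have hN1c : Continuous N1 := nrm_cont.comp (hN id continuous_id)
  have hN2c : Continuous N2 := nrm_cont.comp (hN (Φb s) hΦbc)
  have hN1p : ∀ τ, Periodic3 (fun x => N1 (τ, x)) := fun τ => by
    intro i x
    simp only [hN1]
    rw [X_shift hB hg, hB.per]
  have hN2p : ∀ τ, Periodic3 (fun x => N2 (τ, x)) := fun τ => by
    intro i x
    simp only [hN2]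
    rw [auto_shift hfb hΦb, X_shift hB hg, hB.per]
  have hfc : ∀ τ ∈ Icc a b, ContDiff ℝ 1 (fun x => u τ x ⬝ᵥ u τ x) := fun τ hτ =>
    dot_c1 (contDiff_slice h.sol.contDiffOn_u ⟨ha.le.trans hτ.1, hτ.2.trans_lt hb⟩)
  have hfp : ∀ τ ∈ Icc a b, Periodic3 (fun x => u τ x ⬝ᵥ u τ x) := fun τ hτ => by
    intro i x
    simp only
    rw [h.sol.periodic_u τ ⟨ha.le.trans hτ.1, hτ.2.trans_lt hb⟩]
  have hE1 : ∀ τ ∈ Icc a b, ∫ x in Dom, N1 (τ, x) ^ 2 = En u 0 := by
    intro τ hτ
    simp only [hN1, nrm_sq, hBu τ hτ]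
    rw [integral_comp hB hg (hfc τ hτ) (hfp τ hτ) b τ]
    exact energy_const h.sol ⟨ha.le.trans hτ.1, hτ.2.trans_lt hb⟩
  have hE2 : ∀ τ ∈ Icc a b, ∫ x in Dom, N2 (τ, x) ^ 2 = En u 0 := by
    intro τ hτ
    simp only [hN2, nrm_sq, hBu τ hτ]
    have h1 : ContDiff ℝ 1 (fun x => u τ (X g b τ x) ⬝ᵥ u τ (X g b τ x)) :=
      (hfc τ hτ).comp (X_c1' hB hg b τ)
    have h2 : Periodic3 (fun x => u τ (X g b τ x) ⬝ᵥ u τ (X g b τ x)) :=
      comp_per hB hg (hfp τ hτ) b τ
    rw [auto_integral hfb hΦb h1 h2 s, integral_comp hB hg (hfc τ hτ) (hfp τ hτ) b τ]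
    exact energy_const h.sol ⟨ha.le.trans hτ.1, hτ.2.trans_lt hb⟩
  set c : V → ℝ := fun x => ∫ τ in a..b, (N1 (τ, x) + N2 (τ, x)) with hc
  have hcc : Continuous c := by
    refine intervalIntegral.continuous_parametric_intervalIntegral_of_continuous' ?_ a b
    exact (hN1c.comp (by fun_prop)).add (hN2c.comp (by fun_prop))
  have hc0 : ∀ x, 0 ≤ c x := fun x => intervalIntegral.integral_nonneg hab fun τ _ =>
    add_nonneg (nrm_nonneg _) (nrm_nonneg _)
  refine ⟨X g b a, c, fun f hf hfp => ⟨integral_comp hB hg hf hfp b a, comp_per hB hg hfp b a⟩,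
    X_c1' hB hg b a, hcc, ?_, hc0, ?_, ?_⟩
  · intro i x
    simp only [hc]
    refine intervalIntegral.integral_congr fun τ _ => ?_
    have e1 := hN1p τ i x
    have e2 := hN2p τ i x
    simp only at e1 e2 ⊢
    rw [e1, e2]
  · -- the energy estimate
    set F : ℝ × V → ℝ := fun q => 2 * (N1 q ^ 2 + N2 q ^ 2) with hF
    have hFc : Continuous F := continuous_const.mul ((hN1c.pow 2).add (hN2c.pow 2))
    have h1 : ∀ x, c x ^ 2 ≤ (b - a) * ∫ τ in a..b, F (τ, x) := by
      intro x
      have hq : Continuous fun τ => N1 (τ, x) + N2 (τ, x) :=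
        (hN1c.comp (by fun_prop)).add (hN2c.comp (by fun_prop))
      refine (cs_interval hab hq).trans (mul_le_mul_of_nonneg_left ?_ (by linarith))
      refine intervalIntegral.integral_mono_on hab ((hq.pow 2).intervalIntegrable _ _)
        ((hFc.comp (by fun_prop : Continuous fun τ : ℝ => (τ, x))).intervalIntegrable _ _)
        fun τ _ => ?_
      simp only [hF]
      nlinarith [sq_nonneg (N1 (τ, x) - N2 (τ, x))]
    have hi1 : IntegrableOn (fun x => c x ^ 2) Dom := by
      have hcl : IntegrableOn (fun x => c x ^ 2) (closure Dom) :=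
        (hcc.pow 2).continuousOn.integrableOn_compact dom_bdd.isCompact_closure
      exact hcl.mono_set subset_closure
    have hi2 : IntegrableOn (fun x => ∫ τ in a..b, F (τ, x)) Dom := by
      have hcF : Continuous fun x => ∫ τ in a..b, F (τ, x) :=
        intervalIntegral.continuous_parametric_intervalIntegral_of_continuous'
          (f := fun (x : V) (τ : ℝ) => F (τ, x))
          (hFc.comp (by fun_prop : Continuous fun q : V × ℝ => (q.2, q.1))) a b
      have hcl : IntegrableOn (fun x => ∫ τ in a..b, F (τ, x)) (closure Dom) :=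
        hcF.continuousOn.integrableOn_compact dom_bdd.isCompact_closure
      exact hcl.mono_set subset_closure
    have h2 : ∫ x in Dom, c x ^ 2 ≤ ∫ x in Dom, (b - a) * ∫ τ in a..b, F (τ, x) :=
      integral_mono hi1 (hi2.const_mul _) h1
    rw [integral_const_mul, swap hab hFc] at h2
    have h3 : ∫ τ in a..b, ∫ x in Dom, F (τ, x) = ∫ _ in a..b, 4 * En u 0 := by
      refine intervalIntegral.integral_congr fun τ hτ => ?_
      rw [uIcc_of_le hab] at hτ
      simp only [hF]
      have j1 : IntegrableOn (fun x => N1 (τ, x) ^ 2) Dom := by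
        have hcl : IntegrableOn (fun x => N1 (τ, x) ^ 2) (closure Dom) :=
          ((hN1c.comp (by fun_prop : Continuous fun x : V => (τ, x))).pow 2).continuousOn.integrableOn_compact
            dom_bdd.isCompact_closure
        exact hcl.mono_set subset_closure
      have j2 : IntegrableOn (fun x => N2 (τ, x) ^ 2) Dom := by
        have hcl : IntegrableOn (fun x => N2 (τ, x) ^ 2) (closure Dom) :=
          ((hN2c.comp (by fun_prop : Continuous fun x : V => (τ, x))).pow 2).continuousOn.integrableOn_compact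
            dom_bdd.isCompact_closure
        exact hcl.mono_set subset_closure
      rw [integral_const_mul, integral_add j1 j2, hE1 τ hτ, hE2 τ hτ]
      ring
    rw [h3, intervalIntegral.integral_const, smul_eq_mul] at h2
    refine h2.trans (le_of_eq ?_)
    have h4 : Real.sqrt (En u 0) ^ 2 = En u 0 := Real.sq_sqrt (En_nonneg 0)
    rw [mul_pow, mul_pow, h4]
    ring
  · -- the pointwise identity
    intro x
    set f : ℝ → V := fun τ => X g b τ (Φb s x) - X g b τ x with hf
    set f' : ℝ → V := fun τ => B τ (X g b τ (Φb s x)) - B τ (X g b τ x) with hf'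
    have hder : ∀ τ, HasDerivAt f (f' τ) τ := fun τ =>
      (X_deriv hg b τ (Φb s x)).sub (X_deriv hg b τ x)
    have hf'c : Continuous f' := by
      have e1 := (hN id continuous_id).comp (by fun_prop : Continuous fun τ : ℝ => (τ, Φb s x))
      have e2 := (hN id continuous_id).comp (by fun_prop : Continuous fun τ : ℝ => (τ, x))
      exact e1.sub e2
    have hq : Continuous fun τ => N1 (τ, x) + N2 (τ, x) :=
      (hN1c.comp (by fun_prop)).add (hN2c.comp (by fun_prop))
    have h1 := nrm_incr (f := f) (f' := f') (q := fun τ => N1 (τ, x) + N2 (τ, x)) hab hder hf'c hq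
      (fun τ _ => by
        rw [add_comm]
        exact nrm_sub_le _ _)
    have h2 : f b = Φb s x - x := by
      simp only [hf]
      rw [X_self hg, X_self hg]
    have h3 : f a = Φa s (X g b a x) - X g b a x := by
      simp only [hf]
      have h4 := commute h ha hab hb hB hBu hg hΦa hΦb s (X g b a x)
      rw [X_inv hB hg b a x] at h4
      rw [← h4, X_inv hB hg a b]
    rw [h2, h3] at h1
    exact h1

end

end Q177.EF
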