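import Pool.Agent.H708R2.EulerTypeI.Main
import Pool.Agent.W786.Dir8
import Pool.Agent.W786.Max4
import Pool.Agent.GR.Flow

/-!
# Flows of time-dependent periodic divergence-free fields
-/

set_option autoImplicit false

open MeasureTheory Set Topology Filter
open scoped NNReal ENNReal

namespace Q177.EF

open Pool.Agent.H708R2.EulerSign Pool.Agent.H708R2.EulerTypeI Pool.Agent.GR.Flow

/-- A time-dependent divergence-free periodic field of class `C¹`. -/
structure Fld (b : ℝ → V → V) : Prop where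
  c1 : ContDiff ℝ 1 (fun z : ℝ × V => b z.1 z.2)
  per : ∀ t, Periodic3 (b t)
  div : ∀ t x, divergence (b t) x = 0
  bdd : ∃ M : ℝ≥0, ∀ t x, ‖b t x‖ ≤ M
  lip : ∃ K : ℝ≥0, LipschitzWith K (fun z : ℝ × V => b z.1 z.2)

/-- The space-time field. -/
def stf (b : ℝ → V → V) (z : ℝ × V) : ℝ × V := (1, b z.1 z.2)

variable {b : ℝ → V → V}

lemma stf_lip (hb : Fld b) : ∃ K : ℝ≥0, LipschitzWith K (stf b) := by
  obtain ⟨K, hK⟩ := hb.lip
  exact ⟨_, (LipschitzWith.const (1 : ℝ)).prodMk hK⟩

lemma stf_c1 (hb : Fld b) : ContDiff ℝ 1 (stf b) := contDiff_const.prodMk hb.c1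

lemma exists_flow (hb : Fld b) : ∃ g : ℝ → (ℝ × V) → (ℝ × V), IsFlowOf (stf b) g := by
  obtain ⟨K, hK⟩ := stf_lip hb
  obtain ⟨M, hM⟩ := hb.bdd
  have hbd : ∀ z, ‖stf b z‖ ≤ ((max 1 M : ℝ≥0) : ℝ) := by
    intro z
    unfold stf
    rw [Prod.norm_def]
    simp only [norm_one, NNReal.coe_max, NNReal.coe_one]
    exact max_le_max le_rfl (hM _ _)
  choose g h0 h1 using fun z => exists_solution hK hbd z
  exact ⟨fun t z => g z t, fun z => h0 z, fun z t => h1 z t⟩

/-- The flow from the time `s` to the time `t`. -/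
def X (g : ℝ → (ℝ × V) → (ℝ × V)) (s t : ℝ) (x : V) : V := (g (t - s) (s, x)).2

section

variable {g : ℝ → (ℝ × V) → (ℝ × V)} (hb : Fld b) (hg : IsFlowOf (stf b) g)

include hg in
lemma fst_eq (z : ℝ × V) (r : ℝ) : (g r z).1 = z.1 + r := by
  have h1 : ∀ r, HasDerivAt (fun r => (g r z).1 - r) 0 r := by
    intro r
    have h2 : HasDerivAt (fun r => (g r z).1) 1 r :=
      ((hasFDerivAt_fst (𝕜 := ℝ) (E := ℝ) (F := V) (p := g r z)).comp_hasDerivAt r
        (hg.deriv z r)).congr_deriv rfl
    exact (h2.sub (hasDerivAt_id r)).congr_deriv (by simp)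
  have h3 : (g r z).1 - r = (g 0 z).1 - 0 :=
    is_const_of_deriv_eq_zero (fun r => (h1 r).differentiableAt) (fun r => (h1 r).deriv) r 0
  rw [hg.zero] at h3
  linarith

include hg in
lemma g_eq (s t : ℝ) (x : V) : g (t - s) (s, x) = (t, X g s t x) := by
  ext1
  · rw [fst_eq hg]; simp
  · rfl

include hg in
lemma X_self (s : ℝ) (x : V) : X g s s x = x := by
  unfold X; rw [sub_self, hg.zero]

include hb hg in
lemma g_add (t s : ℝ) (z : ℝ × V) : g (t + s) z = g t (g s z) := by
  obtain ⟨K, hK⟩ := stf_lip hb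
  exact hg.add hK t s z

include hb hg in
lemma X_comp (s t r : ℝ) (x : V) : X g t r (X g s t x) = X g s r x := by
  have h1 : g (r - t) (t, X g s t x) = g (r - s) (s, x) := by
    rw [← g_eq hg, ← g_add hb hg]
    congr 1
    ring
  unfold X at h1 ⊢
  rw [h1]

include hb hg in
lemma X_inv (s t : ℝ) (x : V) : X g t s (X g s t x) = x := by
  rw [X_comp hb hg, X_self hg]

include hg in
lemma X_deriv (s t : ℝ) (x : V) : HasDerivAt (fun t => X g s t x) (b t (X g s t x)) t := by
  have h1 : HasDerivAt (fun t : ℝ => g (t - s) (s, x)) (stf b (g (t - s) (s, x))) t := by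
    have := (hg.deriv (s, x) (t - s)).comp_sub_const t s
    exact this
  have h2 := (hasFDerivAt_snd (𝕜 := ℝ) (E := ℝ) (F := V)
    (p := g (t - s) (s, x))).comp_hasDerivAt t h1
  have h3 : (stf b (g (t - s) (s, x))).2 = b t (X g s t x) := by
    rw [g_eq hg]; rfl
  exact h2.congr_deriv h3

include hb hg in
lemma g_c1 : ContDiff ℝ 1 (fun q : ℝ × (ℝ × V) => g q.1 q.2) := by
  obtain ⟨K, hK⟩ := stf_lip hb
  have h := contDiff_flow (X := ⟨stf b, (stf_c1 hb).continuous⟩) (m := 1) one_ne_zero
    (by simpa using stf_c1 hb) hK hg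
  simpa using h

include hb hg in
lemma X_c1 : ContDiff ℝ 1 (fun q : (ℝ × ℝ) × V => X g q.1.1 q.1.2 q.2) := by
  unfold X
  refine contDiff_snd.comp ((g_c1 hb hg).comp (f := fun q : (ℝ × ℝ) × V =>
    (q.1.2 - q.1.1, (q.1.1, q.2))) ?_)
  fun_prop

include hb hg in
lemma X_c1' (s t : ℝ) : ContDiff ℝ 1 (X g s t) :=
  (X_c1 hb hg).comp (f := fun x : V => ((s, t), x)) (by fun_prop)

include hb hg in
lemma g_shift (i : Fin 3) (r : ℝ) (z : ℝ × V) :
    g r (z + (0, Pi.single i (2 * Real.pi))) = g r z + (0, Pi.single i (2 * Real.pi)) := by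
  obtain ⟨K, hK⟩ := stf_lip hb
  have h1 : (fun r => g r (z + (0, Pi.single i (2 * Real.pi))))
      = fun r => g r z + (0, Pi.single i (2 * Real.pi)) := by
    refine ODE_solution_unique_univ (v := fun _ => stf b) (s := fun _ => univ) (K := K) (t₀ := 0)
      (fun t => hK.lipschitzOnWith) (fun t => ⟨hg.deriv _ t, trivial⟩) (fun t => ⟨?_, trivial⟩) ?_
    · have h2 : stf b (g t z + (0, Pi.single i (2 * Real.pi))) = stf b (g t z) := by
        unfold stf
        simp only [Prod.fst_add, Prod.snd_add, add_zero]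
        rw [hb.per]
      rw [h2]
      exact (hg.deriv z t).add_const _
    · rw [hg.zero, hg.zero]
  exact congrFun h1 r

include hb hg in
lemma X_shift (s t : ℝ) (i : Fin 3) (x : V) :
    X g s t (x + Pi.single i (2 * Real.pi)) = X g s t x + Pi.single i (2 * Real.pi) := by
  have h := g_shift hb hg i (t - s) (s, x)
  have e : ((s, x) : ℝ × V) + (0, Pi.single i (2 * Real.pi))
      = (s, x + Pi.single i (2 * Real.pi)) := by
    ext1 <;> simp
  rw [e] at h
  unfold X
  rw [h]
  simp

include hb hg in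
lemma comp_per {F : Type*} {f : V → F} (hf : Periodic3 f) (s t : ℝ) :
    Periodic3 (fun x => f (X g s t x)) := by
  intro i x
  simp only
  rw [X_shift hb hg, hf]

/-- The flow preserves integrals of `C¹` periodic functions over the period cell. -/
theorem integral_comp (hb : Fld b) (hg : IsFlowOf (stf b) g) {f : V → ℝ} (hf : ContDiff ℝ 1 f)
    (hp : Periodic3 f) (s t : ℝ) : ∫ x in Dom, f (X g s t x) = ∫ x in Dom, f x := by
  set G : ℝ × V → ℝ := fun z => f (X g z.1 t z.2) with hG
  have hGc : ContDiff ℝ 1 G := hf.comp ((X_c1 hb hg).comp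
    (f := fun z : ℝ × V => ((z.1, t), z.2)) (by fun_prop))
  -- constant along the flow
  have hconst : ∀ z : ℝ × V, fderiv ℝ G z (stf b z) = 0 := by
    intro z
    have h1 : ∀ r, G (g r z) = G z := by
      intro r
      have e1 : g r z = (z.1 + r, X g z.1 (z.1 + r) z.2) := by
        have := g_eq hg z.1 (z.1 + r) z.2
        rw [add_sub_cancel_left] at this
        exact this
      rw [hG]
      simp only
      rw [e1]
      simp only
      rw [X_comp hb hg]
    have h2 : HasDerivAt (fun r => G (g r z)) (fderiv ℝ G (g 0 z) (stf b (g 0 z))) 0 :=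
      ((hGc.differentiable one_ne_zero _).hasFDerivAt).comp_hasDerivAt 0 (hg.deriv z 0)
    have h3 : HasDerivAt (fun r => G (g r z)) 0 0 := by
      have : (fun r => G (g r z)) = fun _ => G z := funext h1
      rw [this]; exact hasDerivAt_const _ _
    have := h2.unique h3
    rwa [hg.zero] at this
  have hslice : ∀ σ : ℝ, ContDiff ℝ 1 (fun x => G (σ, x)) := fun σ =>
    hGc.comp (f := fun x : V => ((σ, x) : ℝ × V)) (by fun_prop)
  have hfx : ∀ (σ : ℝ) (x v : V), fderiv ℝ (fun x => G (σ, x)) x v = fderiv ℝ G (σ, x) (0, v) := by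
    intro σ x v
    exact slice_fderiv (f := fun σ x => G (σ, x)) (hGc.differentiable one_ne_zero _) v
  -- derivative in the initial time
  have hσ : ∀ (σ : ℝ) (x : V), HasDerivAt (fun σ => G (σ, x)) (fderiv ℝ G (σ, x) (1, 0)) σ := by
    intro σ x
    have h2 : HasDerivAt (fun s : ℝ => ((s, x) : ℝ × V)) (1, 0) σ :=
      (hasDerivAt_id σ).prodMk (hasDerivAt_const σ x)
    exact ((hGc.differentiable one_ne_zero _).hasFDerivAt).comp_hasDerivAt σ h2
  have hval : ∀ (σ : ℝ) (x : V), fderiv ℝ G (σ, x) (1, 0)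
      = -divergence (fun y => G (σ, y) • b σ y) x := by
    intro σ x
    have hbσ : ContDiff ℝ 1 (b σ) := hb.c1.comp (f := fun x : V => ((σ, x) : ℝ × V)) (by fun_prop)
    rw [divergence_smul ((hslice σ).differentiable one_ne_zero x)
      (hbσ.differentiable one_ne_zero x), hb.div, mul_zero, zero_add, hfx]
    have h1 := hconst (σ, x)
    have h2 : stf b (σ, x) = (1, 0) + (0, b σ x) := by
      unfold stf; ext1 <;> simp
    rw [h2, map_add] at h1
    linarith
  -- the integral is constant
  have hI : ∀ σ, HasDerivAt (fun σ => ∫ x in Dom, G (σ, x)) 0 σ := by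
    intro σ
    have hd : Continuous (fun z : ℝ × V => fderiv ℝ G z (1, 0)) :=
      (hGc.continuous_fderiv one_ne_zero).clm_apply continuous_const
    have hK : IsCompact (Icc (σ - 1) (σ + 1) ×ˢ closure Dom) :=
      isCompact_Icc.prod dom_bdd.isCompact_closure
    obtain ⟨C, hC⟩ := hK.exists_bound_of_continuousOn hd.continuousOn
    have hnh : Icc (σ - 1) (σ + 1) ∈ 𝓝 σ := Icc_mem_nhds (by linarith) (by linarith)
    have key := (hasDerivAt_integral_of_dominated_loc_of_deriv_le (s := Icc (σ - 1) (σ + 1))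
      (F := fun σ x => G (σ, x)) (F' := fun σ x => fderiv ℝ G (σ, x) (1, 0))
      (bound := fun _ => C) (μ := volume.restrict Dom) (x₀ := σ) hnh ?_ ?_ ?_ ?_ ?_ ?_).2
    · have e : ∫ x in Dom, fderiv ℝ G (σ, x) (1, 0) = 0 := by
        simp_rw [hval]
        rw [integral_neg]
        have hbσ : ContDiff ℝ 1 (b σ) :=
          hb.c1.comp (f := fun x : V => ((σ, x) : ℝ × V)) (by fun_prop)
        have h5 : ∫ x in Dom, divergence (fun y => G (σ, y) • b σ y) x = 0 := by
          refine integral_divergence_eq_zero ((hslice σ).smul hbσ) ?_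
          intro i x
          simp only
          have e1 : G (σ, x + Pi.single i (2 * Real.pi)) = G (σ, x) :=
            comp_per hb hg hp σ t i x
          rw [e1, hb.per]
        rw [h5, neg_zero]
      exact key.congr_deriv e
    · exact Filter.Eventually.of_forall fun σ' => (hslice σ').continuous.aestronglyMeasurable
    · have hcl : IntegrableOn (fun x => G (σ, x)) (closure Dom) :=
        (hslice σ).continuous.continuousOn.integrableOn_compact dom_bdd.isCompact_closure
      exact hcl.mono_set subset_closure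
    · exact (hd.comp (by fun_prop : Continuous fun x : V => ((σ, x) : ℝ × V))).aestronglyMeasurable
    · refine (ae_restrict_iff' dom_meas).2 (Filter.Eventually.of_forall fun x hx σ' hs => ?_)
      exact hC (σ', x) ⟨hs, subset_closure hx⟩
    · exact integrableOn_const dom_lt_top.ne
    · exact Filter.Eventually.of_forall fun x σ' _ => hσ σ' x
  have h3 : (∫ x in Dom, G (s, x)) = ∫ x in Dom, G (t, x) :=
    is_const_of_deriv_eq_zero (fun r => (hI r).differentiableAt) (fun r => (hI r).deriv) s t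
  simp only [hG, X_self hg] at h3
  exact h3

end

end Q177.EF
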