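import Pool.Agent.Q177.EF.Flow

/-!
# The vorticity is frozen into the flow
-/

set_option autoImplicit false

open MeasureTheory Set Topology Filter
open scoped NNReal ENNReal

namespace Q177.EF

open Pool.Agent.H708R2.EulerSign Pool.Agent.H708R2.EulerTypeI Pool.Agent.GR.Flow
open Pool.Agent.W786.Dir

/-! ### Cutting off in time -/

lemma divergence_zero (x : V) : divergence (fun _ => (0 : V)) x = 0 := by
  rw [divergence_eq_sum]
  simp

theorem exists_cut {T : ℝ} {u : ℝ → V → V} {p : ℝ → V → ℝ} (h : IsC2Solution T u p) {a b : ℝ}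
    (ha : 0 < a) (hab : a ≤ b) (hb : b < T) :
    ∃ B : ℝ → V → V, Fld B ∧ ∀ t ∈ Icc a b, B t = u t := by
  set η : ℝ := min a (T - b) / 3 with hη
  have hη0 : 0 < η := by
    have : 0 < min a (T - b) := lt_min ha (by linarith)
    positivity
  have hη1 : 3 * η ≤ a := by rw [hη]; linarith [min_le_left a (T - b)]
  have hη2 : 3 * η ≤ T - b := by rw [hη]; linarith [min_le_right a (T - b)]
  let φ : ContDiffBump ((a + b) / 2 : ℝ) :=
    ⟨(b - a) / 2 + η, (b - a) / 2 + 2 * η, by linarith, by linarith⟩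
  have hout : φ.rOut = (b - a) / 2 + 2 * η := rfl
  have hin : φ.rIn = (b - a) / 2 + η := rfl
  have hball : ∀ t, t ∈ Metric.closedBall ((a + b) / 2) φ.rOut → t ∈ Ioo 0 T := by
    intro t ht
    rw [Metric.mem_closedBall, Real.dist_eq, hout, abs_le] at ht
    exact ⟨by linarith [ht.1], by linarith [ht.2]⟩
  have hφ0 : ∀ t, t ∉ Metric.closedBall ((a + b) / 2) φ.rOut → φ t = 0 := by
    intro t ht
    by_contra h0
    apply ht
    have : t ∈ Function.support φ := h0
    rw [φ.support_eq] at this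
    exact Metric.ball_subset_closedBall this
  have hφ1 : ∀ t ∈ Icc a b, φ t = 1 := by
    intro t ht
    refine φ.one_of_mem_closedBall ?_
    rw [Metric.mem_closedBall, Real.dist_eq, hin, abs_le]
    exact ⟨by linarith [ht.1], by linarith [ht.2]⟩
  set B : ℝ → V → V := fun t x => φ t • u t x with hB
  have hBc : ContDiff ℝ 1 (fun z : ℝ × V => B z.1 z.2) := by
    rw [contDiff_iff_contDiffAt]
    rintro ⟨s, x⟩
    by_cases hs : s ∈ Metric.closedBall ((a + b) / 2) φ.rOut
    · have h1 : ContDiffAt ℝ 1 (fun z : ℝ × V => u z.1 z.2) (s, x) :=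
        (h.u2.contDiffAt (isOpen_Om.mem_nhds ⟨hball s hs, mem_univ x⟩)).of_le (by norm_num)
      have h2 : ContDiffAt ℝ 1 (fun z : ℝ × V => φ z.1) (s, x) :=
        (φ.contDiff.comp contDiff_fst).contDiffAt
      exact h2.smul h1
    · have h1 : ∀ᶠ z : ℝ × V in 𝓝 (s, x), B z.1 z.2 = 0 := by
        have h2 : ∀ᶠ r in 𝓝 s, r ∉ Metric.closedBall ((a + b) / 2) φ.rOut :=
          Metric.isClosed_closedBall.isOpen_compl.mem_nhds hs
        filter_upwards [(continuous_fst.tendsto (s, x)).eventually h2] with z hz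
        simp only [hB, hφ0 z.1 hz, zero_smul]
      exact (contDiffAt_const (c := (0 : V))).congr_of_eventuallyEq h1
  have hper : ∀ t, Periodic3 (B t) := by
    intro t i x
    by_cases hs : t ∈ Metric.closedBall ((a + b) / 2) φ.rOut
    · have h1 := h.sol.periodic_u t ⟨(hball t hs).1.le, (hball t hs).2⟩ i x
      simp only [hB]
      rw [h1]
    · simp only [hB, hφ0 t hs, zero_smul]
  have hslab : ∀ {F : Type} [NormedAddCommGroup F] (f : ℝ × V → F), Continuous f →
      (∀ t, Periodic3 (fun x => f (t, x))) →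
      (∀ t, t ∉ Metric.closedBall ((a + b) / 2) φ.rOut → ∀ x, f (t, x) = 0) →
      ∃ C : ℝ, 0 ≤ C ∧ ∀ z, ‖f z‖ ≤ C := by
    intro F _ f hf hfp hf0
    obtain ⟨C, hC0, hC⟩ := bound_on_slab (f := fun t x => f (t, x))
      (a := (a + b) / 2 - φ.rOut) (b := (a + b) / 2 + φ.rOut)
      (hf.comp (by fun_prop)).continuousOn (fun t _ => hfp t)
    refine ⟨C, hC0, fun z => ?_⟩
    by_cases hs : z.1 ∈ Metric.closedBall ((a + b) / 2) φ.rOut
    · refine hC z.1 ?_ z.2
      rw [Real.closedBall_eq_Icc] at hs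
      exact hs
    · have := hf0 z.1 hs z.2
      rw [show f z = 0 from this, norm_zero]
      exact hC0
  refine ⟨B, ⟨hBc, hper, ?_, ?_, ?_⟩, fun t ht => ?_⟩
  · intro t x
    by_cases hs : t ∈ Metric.closedBall ((a + b) / 2) φ.rOut
    · have htI : t ∈ Ico 0 T := ⟨(hball t hs).1.le, (hball t hs).2⟩
      have h1 : DifferentiableAt ℝ (u t) x :=
        (contDiff_slice h.sol.contDiffOn_u htI).differentiable one_ne_zero x
      have h2 := divergence_smul (φ := fun _ : V => φ t) (g := u t) (x := x)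
        (differentiableAt_const _) h1
      have h3 := h.sol.div_free t htI x
      simp only [hB]
      rw [h2, h3]
      simp
    · have : B t = fun _ => (0 : V) := by
        ext1 y; simp only [hB, hφ0 t hs, zero_smul]
      rw [this, divergence_zero]
  · obtain ⟨C, hC0, hC⟩ := hslab (fun z : ℝ × V => B z.1 z.2) hBc.continuous hper
      (fun t ht x => by simp only [hB, hφ0 t ht, zero_smul])
    exact ⟨⟨C, hC0⟩, fun t x => hC (t, x)⟩
  · have q1 : ∀ t, Periodic3 (fun x => fderiv ℝ (fun z : ℝ × V => B z.1 z.2) (t, x)) := by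
      intro t i x
      have h1 : (fun z : ℝ × V => B z.1 z.2)
          = fun z : ℝ × V => (fun z : ℝ × V => B z.1 z.2) (z + (0, Pi.single i (2 * Real.pi))) := by
        ext1 z
        simp only [Prod.fst_add, Prod.snd_add, add_zero]
        rw [hper]
      have h2 := congrArg (fun f => fderiv ℝ f ((t, x) : ℝ × V)) h1
      simp only at h2
      rw [fderiv_comp_add_right (f := fun z : ℝ × V => B z.1 z.2)] at h2
      simp only [Prod.mk_add_mk, add_zero] at h2
      simp only
      rw [h2]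
    have q2 : ∀ t, t ∉ Metric.closedBall ((a + b) / 2) φ.rOut → ∀ x,
        fderiv ℝ (fun z : ℝ × V => B z.1 z.2) (t, x) = 0 := by
      intro t ht x
      have h1 : (fun z : ℝ × V => B z.1 z.2) =ᶠ[𝓝 (t, x)] (fun _ : ℝ × V => (0 : V)) := by
        have h2 : ∀ᶠ r in 𝓝 t, r ∉ Metric.closedBall ((a + b) / 2) φ.rOut :=
          Metric.isClosed_closedBall.isOpen_compl.mem_nhds ht
        filter_upwards [(continuous_fst.tendsto (t, x)).eventually h2] with z hz
        simp only [hB, hφ0 z.1 hz, zero_smul]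
      have h3 := Filter.EventuallyEq.fderiv_eq (𝕜 := ℝ) h1
      rw [h3, fderiv_fun_const]
      rfl
    obtain ⟨C, hC0, hC⟩ := hslab (fderiv ℝ (fun z : ℝ × V => B z.1 z.2))
      (hBc.continuous_fderiv one_ne_zero) q1 q2
    exact ⟨⟨C, hC0⟩, lipschitzWith_of_nnnorm_fderiv_le (hBc.differentiable one_ne_zero)
      fun z => by
        have := hC z
        exact_mod_cast this⟩
  · ext1 x
    simp only [hB, hφ1 t ht, one_smul]

/-! ### The vorticity field at one time -/

lemma vort_hasFDerivAt {v : V → V} (hv : ContDiff ℝ 2 v) (x : V) :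
    HasFDerivAt (vort v) (ContinuousLinearMap.pi
      ![fderiv ℝ (fun x => grad v x 2 1) x - fderiv ℝ (fun x => grad v x 1 2) x,
        fderiv ℝ (fun x => grad v x 0 2) x - fderiv ℝ (fun x => grad v x 2 0) x,
        fderiv ℝ (fun x => grad v x 1 0) x - fderiv ℝ (fun x => grad v x 0 1) x]) x := by
  have h : ∀ i j, HasFDerivAt (fun x => grad v x i j) (fderiv ℝ (fun x => grad v x i j) x) x :=
    fun i j => ((grad_contDiff hv i j).differentiable one_ne_zero x).hasFDerivAt
  rw [hasFDerivAt_pi]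
  intro i
  fin_cases i
  · exact (h 2 1).sub (h 1 2)
  · exact (h 0 2).sub (h 2 0)
  · exact (h 1 0).sub (h 0 1)

lemma vort_c1 {v : V → V} (hv : ContDiff ℝ 2 v) : ContDiff ℝ 1 (vort v) := by
  rw [contDiff_pi]
  intro i
  fin_cases i
  · exact (grad_contDiff hv 2 1).sub (grad_contDiff hv 1 2)
  · exact (grad_contDiff hv 0 2).sub (grad_contDiff hv 2 0)
  · exact (grad_contDiff hv 1 0).sub (grad_contDiff hv 0 1)

lemma vort_div {v : V → V} (hv : ContDiff ℝ 2 v) (x : V) : divergence (vort v) x = 0 := by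
  rw [divergence_eq_sum, (vort_hasFDerivAt hv x).fderiv]
  simp only [ContinuousLinearMap.coe_pi', Fin.sum_univ_three, Matrix.cons_val_zero,
    Matrix.cons_val_one, Matrix.cons_val, sub_apply]
  have e1 := grad_symm hv x 2 1 0
  have e2 := grad_symm hv x 1 2 0
  have e3 := grad_symm hv x 0 2 1
  rw [e1, e2, e3]
  ring

lemma vort_per {v : V → V} (hp : Periodic3 v) : Periodic3 (vort v) := by
  intro i x
  unfold vort
  rw [hp.grad i x]

lemma fld_vort {v : V → V} (hv : ContDiff ℝ 2 v) (hp : Periodic3 v) :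
    Fld (fun _ => vort v) := by
  have hc := vort_c1 hv
  have hper := vort_per hp
  obtain ⟨M, hM0, hM⟩ := hper.bounded hc.continuous
  obtain ⟨K, hK0, hK⟩ := hper.fderiv.bounded (hc.continuous_fderiv one_ne_zero)
  have hl : LipschitzWith ⟨K, hK0⟩ (vort v) :=
    lipschitzWith_of_nnnorm_fderiv_le (hc.differentiable one_ne_zero) fun z => by
      have := hK z
      exact_mod_cast this
  refine ⟨hc.comp contDiff_snd, fun _ => hper, fun _ x => vort_div hv x,
    ⟨⟨M, hM0⟩, fun _ x => hM x⟩, ⟨_, hl.comp LipschitzWith.prod_snd⟩⟩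

/-! ### The variational equation -/

lemma var_eq {E : Type} [NormedAddCommGroup E] [NormedSpace ℝ E] [CompleteSpace E] {F : E → E}
    (hF : ContDiff ℝ 1 F) {K : ℝ≥0} (hK : LipschitzWith K F) {g : ℝ → E → E}
    (hg : IsFlowOf F g) (z v : E) (r : ℝ) :
    HasDerivAt (fun r => fderiv ℝ (g r) z v) (fderiv ℝ F (g r z) (fderiv ℝ (g r) z v)) r := by
  have hgc : ContDiff ℝ 1 (fun p : ℝ × E => g p.1 p.2) := by
    have h := contDiff_flow (X := ⟨F, hF.continuous⟩) (m := 1) one_ne_zero
      (by simpa using hF) hK hg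
    simpa using h
  have hgd : ∀ r, Differentiable ℝ (g r) := fun r =>
    (hgc.comp (f := fun x : E => ((r, x) : ℝ × E)) (by fun_prop)).differentiable one_ne_zero
  have h0 := hasDerivAt_fderiv_flow (X := ⟨F, hF.continuous⟩) hF hK hg (g r z)
    (fderiv ℝ (g r) z v)
  have h1 : (fun t => fderiv ℝ (g t) z v)
      = fun t => (fun t => fderiv ℝ (g t) (g r z) (fderiv ℝ (g r) z v)) (t - r) := by
    ext1 t
    have h2 : g t = g (t - r) ∘ g r := by
      ext1 x
      rw [Function.comp_apply, ← hg.add hK, sub_add_cancel]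
    simp only
    rw [h2, fderiv_comp z (hgd _ _) (hgd _ _)]
    rfl
  rw [h1]
  have h3 := HasDerivAt.comp_sub_const (f := fun t => fderiv ℝ (g t) (g r z) (fderiv ℝ (g r) z v))
    (f' := fderiv ℝ F (g r z) (fderiv ℝ (g r) z v)) r r (by rw [sub_self]; exact h0)
  exact h3

/-! ### The vorticity is frozen into the flow -/

section

variable {T : ℝ} {u : ℝ → V → V} {p : ℝ → V → ℝ} {a b : ℝ} {B : ℝ → V → V}
  {g : ℝ → (ℝ × V) → (ℝ × V)}

theorem frozen (h : IsC2Solution T u p) (ha : 0 < a) (hab : a ≤ b) (hb : b < T) (hB : Fld B)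
    (hBu : ∀ t ∈ Icc a b, B t = u t) (hg : IsFlowOf (stf B) g) (y : V) :
    fderiv ℝ (X g a b) y (vort (u a) y) = vort (u b) (X g a b y) := by
  obtain ⟨K, hK⟩ := stf_lip hB
  have hsub : Icc a b ⊆ Ioo 0 T := fun t ht => ⟨ha.trans_le ht.1, ht.2.trans_lt hb⟩
  have htraj : IsTraj u (fun t => X g a t y) a b := by
    intro t ht
    have := (X_deriv hg a t y).hasDerivWithinAt (s := Icc a b)
    rw [hBu t ht] at this
    exact this
  have hXd : Differentiable ℝ (X g a b) := (X_c1' hB hg a b).differentiable one_ne_zero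
  set z : ℝ × V := (a, y) with hz
  set v : ℝ × V := (0, vort (u a) y) with hv
  have hf' : ∀ t, HasDerivAt (fun t => fderiv ℝ (g (t - a)) z v)
      (fderiv ℝ (stf B) (g (t - a) z) (fderiv ℝ (g (t - a)) z v)) t := fun t =>
    HasDerivAt.comp_sub_const t a (var_eq (stf_c1 hB) hK hg z v (t - a))
  have hst : ∀ (t : ℝ) (x w : V), fderiv ℝ (stf B) (t, x) (0, w) = (0, fderiv ℝ (B t) x w) := by
    intro t x w
    have h1 : DifferentiableAt ℝ (fun z : ℝ × V => B z.1 z.2) (t, x) :=
      hB.c1.differentiable one_ne_zero _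
    have h2 : HasFDerivAt (stf B) ((0 : ℝ × V →L[ℝ] ℝ).prod
        (fderiv ℝ (fun z : ℝ × V => B z.1 z.2) (t, x))) (t, x) :=
      (hasFDerivAt_const (1 : ℝ) _).prodMk h1.hasFDerivAt
    rw [h2.fderiv, slice_fderiv (f := B) h1]
    rfl
  have hg' : ∀ t ∈ Icc a b, HasDerivWithinAt (fun t => ((0, vort (u t) (X g a t y)) : ℝ × V))
      (fderiv ℝ (stf B) (g (t - a) z) (0, vort (u t) (X g a t y))) (Icc a b) t := by
    intro t ht
    have h1 := (hasDerivWithinAt_const t (Icc a b) (0 : ℝ)).prodMk (vort_deriv h htraj hsub ht)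
    refine h1.congr_deriv ?_
    rw [hz, g_eq hg, hst, hBu t ht]
    congr 1
    ext i
    rw [Matrix.mulVec, dotProduct, ← sum_mul_clm (fderiv ℝ (u t) (X g a t y))]
    refine Finset.sum_congr rfl fun j _ => ?_
    rw [mul_comm]
    rfl
  have key := ODE_solution_unique_of_mem_Icc_right (v := fun t w => fderiv ℝ (stf B) (g (t - a) z) w)
    (s := fun _ => univ) (K := K) (a := a) (b := b)
    (f := fun t => fderiv ℝ (g (t - a)) z v)
    (g := fun t => ((0, vort (u t) (X g a t y)) : ℝ × V))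
    (fun t _ => ?_) (fun t _ => (hf' t).continuousAt.continuousWithinAt)
    (fun t _ => (hf' t).hasDerivWithinAt) (fun _ _ => trivial)
    (fun t ht => (hg' t ht).continuousWithinAt)
    (fun t ht => right_of_Icc ht (hg' t ⟨ht.1, ht.2.le⟩)) (fun _ _ => trivial) ?_
  · have h1 := key (right_mem_Icc.2 hab)
    simp only at h1
    -- chain rule
    have hgd : DifferentiableAt ℝ (g (b - a)) z :=
      ((g_c1 hB hg).comp (f := fun x : ℝ × V => ((b - a, x) : ℝ × (ℝ × V)))
        (by fun_prop)).differentiable one_ne_zero z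
    have h2 : HasFDerivAt (fun x : V => ((a, x) : ℝ × V)) (ContinuousLinearMap.inr ℝ ℝ V) y :=
      hasFDerivAt_prodMk_right a y
    have h3 : HasFDerivAt (X g a b) ((ContinuousLinearMap.snd ℝ ℝ V) ∘L
        ((fderiv ℝ (g (b - a)) z) ∘L (ContinuousLinearMap.inr ℝ ℝ V))) y :=
      (ContinuousLinearMap.snd ℝ ℝ V).hasFDerivAt.comp y
        (HasFDerivAt.comp (g := g (b - a)) y hgd.hasFDerivAt h2)
    rw [h3.fderiv]
    show (fderiv ℝ (g (b - a)) z (0, vort (u a) y)).2 = _
    rw [← hv, h1]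
  · have hl : LipschitzWith K (fun w => fderiv ℝ (stf B) (g (t - a) z) w) := by
      refine LipschitzWith.weaken (ContinuousLinearMap.lipschitz _) ?_
      have := norm_fderiv_le_of_lipschitz ℝ hK (x₀ := g (t - a) z)
      exact_mod_cast this
    exact hl.lipschitzOnWith
  · simp only [sub_self, hv]
    have : g 0 = id := by ext1 x; exact hg.zero x
    rw [this, fderiv_id, X_self hg]
    rfl

/-- The flow maps vortex lines to vortex lines, with the same parameter. -/
theorem commute (h : IsC2Solution T u p) (ha : 0 < a) (hab : a ≤ b) (hb : b < T) (hB : Fld B)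
    (hBu : ∀ t ∈ Icc a b, B t = u t) (hg : IsFlowOf (stf B) g) {Φa Φb : ℝ → V → V}
    (hΦa : IsFlowOf (vort (u a)) Φa) (hΦb : IsFlowOf (vort (u b)) Φb) (s : ℝ) (y : V) :
    X g a b (Φa s y) = Φb s (X g a b y) := by
  have hbI : b ∈ Ioo 0 T := ⟨ha.trans_le hab, hb⟩
  have hfb := fld_vort (slice_two h hbI) (h.sol.periodic_u b ⟨hbI.1.le, hbI.2⟩)
  obtain ⟨K, hK⟩ := hfb.lip
  have hKb : LipschitzWith K (vort (u b)) := by
    intro x y
    have := hK (0, x) (0, y)
    simpa [Prod.edist_eq] using this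
  have hXd : Differentiable ℝ (X g a b) := (X_c1' hB hg a b).differentiable one_ne_zero
  have h1 : (fun s => X g a b (Φa s y)) = fun s => Φb s (X g a b y) := by
    refine ODE_solution_unique_univ (v := fun _ => vort (u b)) (s := fun _ => univ) (K := K)
      (t₀ := 0) (fun t => hKb.lipschitzOnWith) (fun t => ⟨?_, trivial⟩)
      (fun t => ⟨hΦb.deriv _ t, trivial⟩) ?_
    · have h2 := (hXd (Φa t y)).hasFDerivAt.comp_hasDerivAt t (hΦa.deriv y t)
      rw [frozen h ha hab hb hB hBu hg] at h2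
      exact h2
    · rw [hΦa.zero, hΦb.zero]
  exact congrFun h1 s

end

end Q177.EF
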