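import Pool.Agent.Q177.EF.Ball

/-!
# One vortex segment at each time
-/

set_option autoImplicit false

open MeasureTheory Set Topology Filter
open scoped NNReal ENNReal Pointwise

namespace Q177.EF

open Pool.Agent.H708R2.EulerSign Pool.Agent.H708R2.EulerTypeI Pool.Agent.GR.Flow
open Pool.Agent.W786.Dir Pool.Agent.W786.Max

variable {T : ℝ} {u : ℝ → V → V} {p : ℝ → V → ℝ}

lemma nrm_incr' {f f' : ℝ → V} {q : ℝ → ℝ} {a b : ℝ} (hab : a ≤ b)
    (hf : ∀ t, HasDerivAt f (f' t) t) (hfc : Continuous f') (hq : IntervalIntegrable q volume a b)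
    (h : ∀ t ∈ Icc a b, nrm (f' t) ≤ q t) : nrm (f b - f a) ≤ ∫ t in a..b, q t := by
  refine nrm_le_of_dot (intervalIntegral.integral_nonneg hab fun t ht =>
    (nrm_nonneg _).trans (h t ht)) fun e he => ?_
  have hc : Continuous fun t => e ⬝ᵥ f' t := by
    simp only [dotProduct]; fun_prop
  have h1 : ∫ t in a..b, e ⬝ᵥ f' t = e ⬝ᵥ f b - e ⬝ᵥ f a :=
    intervalIntegral.integral_eq_sub_of_hasDerivAt (fun t _ => dot_hasDerivAt e (hf t))
      (hc.intervalIntegrable _ _)
  rw [dotProduct_sub, ← h1]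
  refine intervalIntegral.integral_mono_on hab (hc.intervalIntegrable _ _)
    hq fun t ht => (dot_le_nrm he _).trans (h t ht)

/-- The displacement along a vortex line at the time `b` is the displacement along a vortex line
with the same parameter at the time `a`, up to the velocities of the end points. -/
theorem disp_pt (h : IsC2Solution T u p) {a b : ℝ} (ha : 0 < a) (hab : a ≤ b) (hb : b < T)
    {Φa Φb : ℝ → V → V} (hΦa : VortexFlow (u a) Φa) (hΦb : VortexFlow (u b) Φb)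
    {U : ℝ → ℝ} (hUi : IntervalIntegrable U volume a b)
    (hU : ∀ t ∈ Icc a b, ∀ x y, nrm (u t x - u t y) ≤ U t) (x : V) :
    ∃ y : V, ∀ s, nrm ((Φb s x - x) - (Φa s y - y)) ≤ ∫ τ in a..b, U τ := by
  obtain ⟨B, hB, hBu⟩ := exists_cut h ha hab hb
  obtain ⟨g, hg⟩ := exists_flow hB
  refine ⟨X g b a x, fun s => ?_⟩
  have hXj := X_c1 hB hg
  have hN : ∀ y : V, Continuous (fun τ : ℝ => B τ (X g b τ y)) := fun y => by
    have h1 : Continuous (fun τ : ℝ => X g b τ y) :=
      hXj.continuous.comp (f := fun τ : ℝ => ((b, τ), y)) (by fun_prop)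
    exact hB.c1.continuous.comp (f := fun τ : ℝ => (τ, X g b τ y)) (continuous_id.prodMk h1)
  have h1 := nrm_incr' (f := fun τ => X g b τ (Φb s x) - X g b τ x)
    (f' := fun τ => B τ (X g b τ (Φb s x)) - B τ (X g b τ x)) (q := U) hab
    (fun τ => (X_deriv hg b τ (Φb s x)).sub (X_deriv hg b τ x))
    ((hN _).sub (hN _)) hUi (fun τ hτ => by
      rw [hBu τ hτ]
      exact hU τ hτ _ _)
  have h2 : X g b b (Φb s x) - X g b b x = Φb s x - x := by
    rw [X_self hg, X_self hg]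
  have h3 : X g b a (Φb s x) - X g b a x = Φa s (X g b a x) - X g b a x := by
    have h4 := commute h ha hab hb hB hBu hg hΦa.isFlowOf hΦb.isFlowOf s (X g b a x)
    rw [X_inv hB hg b a x] at h4
    rw [← h4, X_inv hB hg a b]
  rw [h2, h3] at h1
  exact h1

/-- One step. -/
theorem seg_step (h : IsC2Solution T u p) {a b : ℝ} (ha : 0 < a) (hab : a ≤ b) (hb : b < T)
    {Φ : ℝ → V → V} (hΦ : VortexFlow (u b) Φ) {U : ℝ → ℝ} (hUi : IntervalIntegrable U volume a b)
    (hU : ∀ t ∈ Icc a b, ∀ x y, nrm (u t x - u t y) ≤ U t) (x : V) (s : ℝ) :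
    nrm (Φ s x - x) ≤ |s| * vmax (u a) + ∫ τ in a..b, U τ := by
  have haI : a ∈ Ioo 0 T := ⟨ha, hab.trans_lt hb⟩
  obtain ⟨Φa, hΦa⟩ := exists_vflow h haI
  obtain ⟨y, hy⟩ := disp_pt h ha hab hb hΦa hΦ hUi hU x
  have h4 := nrm_sub_rev (Φ s x - x) (Φa s y - y)
  have h5 := disp_le (vort_c1 (slice_two h haI)).continuous hΦa.isFlowOf
    (le_vmax h.sol ⟨haI.1.le, haI.2⟩) s y
  have h6 := hy s
  linarith

/-- The criterion with one vortex segment at each time. -/
theorem seg_criterion (hT : 0 < T) (h : IsC2Solution T u p) {U : ℝ → ℝ}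
    (hUi : ∀ a b, 0 < a → a ≤ b → b < T → IntervalIntegrable U volume a b)
    (hU : ∀ t ∈ Ioo 0 T, ∀ x y, nrm (u t x - u t y) ≤ U t)
    {c θ lam : ℝ} (hc : 0 < c) (hθ : 0 < θ) (hlam : 1 < lam) (hcl : 1 < c * θ * lam)
    (hyp : ∀ᶠ t in 𝓝[<] T, (T - t) ^ (-(1 / 2) : ℝ) < vmax (u t) →
      ∃ (s : ℝ) (Φ : ℝ → V → V) (x : V), 0 < s ∧ VortexFlow (u t) Φ ∧
        c * (s * vmax (u t)) ≤ nrm (Φ s x - x) ∧
        ∫ τ in (T - lam * (T - t))..t, U τ ≤ (1 - θ) * nrm (Φ s x - x)) :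
    (∃ C a : ℝ, a < 1 ∧ ∀ᶠ t in 𝓝[<] T, vmax (u t) ≤ C * (T - t) ^ (-a)) ∧ BKMFinite T u := by
  have hμl : 1 / (c * θ) < lam := by
    rw [div_lt_iff₀ (by positivity)]; linarith
  have hev : ∀ᶠ t in 𝓝[<] T, 0 < T - lam * (T - t) := by
    have h1 : Tendsto (fun t : ℝ => T - lam * (T - t)) (𝓝 T) (𝓝 (T - lam * (T - T))) :=
      (by fun_prop : Continuous fun t : ℝ => T - lam * (T - t)).tendsto T
    rw [sub_self, mul_zero, sub_zero] at h1
    exact nhdsWithin_le_nhds (h1.eventually (lt_mem_nhds hT))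
  obtain ⟨C, a, ha, hC0, t₀, ht₀, hb⟩ := iter (M := fun t => vmax (u t)) (T := T)
    (lam := lam) (μ := 1 / (c * θ)) hT hlam (by positivity) hμl
    (fun t => vmax_nonneg _) (fun b hb => vmax_bound h.sol hb) (by
      filter_upwards [hyp, hev, self_mem_nhdsWithin] with t h1 h2 h3
      rcases le_or_gt (vmax (u t)) ((T - t) ^ (-(1 / 2) : ℝ)) with h4 | h4
      · exact le_max_of_le_right h4
      · refine le_max_of_le_left ?_
        obtain ⟨s, Φ, x, hs, hΦ, h5, h6⟩ := h1 h4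
        have h3' : t < T := h3
        have hab : T - lam * (T - t) ≤ t := by nlinarith
        have key := seg_step h h2 hab h3' hΦ (hUi _ _ h2 hab h3')
          (fun r hr => hU r ⟨h2.trans_le hr.1, hr.2.trans_lt h3'⟩) x s
        rw [abs_of_pos hs] at key
        have h7 : θ * nrm (Φ s x - x) ≤ s * vmax (u (T - lam * (T - t))) := by linarith
        have h8 : θ * (c * (s * vmax (u t))) ≤ s * vmax (u (T - lam * (T - t))) :=
          (mul_le_mul_of_nonneg_left h5 hθ.le).trans h7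
        have h9 : c * θ * vmax (u t) ≤ vmax (u (T - lam * (T - t))) := by
          have : s * (c * θ * vmax (u t)) ≤ s * vmax (u (T - lam * (T - t))) := by
            calc s * (c * θ * vmax (u t)) = θ * (c * (s * vmax (u t))) := by ring
              _ ≤ _ := h8
          exact le_of_mul_le_mul_left this hs
        rw [div_mul_eq_mul_div, one_mul, le_div_iff₀ (by positivity)]
        linarith)
  refine ⟨⟨C, a, ha, ?_⟩, bkm_of_pow (C := C) h.sol ht₀ ha fun t ht x => ?_⟩
  · filter_upwards [Ico_mem_nhdsLT ht₀.2] with t ht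
    exact hb t ht
  · exact (le_vmax h.sol ⟨ht₀.1.le.trans ht.1, ht.2⟩ x).trans (hb t ht)

/-- Power rates. -/
theorem seg_rates (hT : 0 < T) (h : IsC2Solution T u p) {K A k B : ℝ} (hA : 0 ≤ A)
    (hk : 0 < k) (hAB : A + B < 1)
    (hU : ∀ t ∈ Ioo 0 T, ∀ x y, nrm (u t x - u t y) ≤ K * (T - t) ^ (-A))
    {c : ℝ} (hc : 0 < c) (hc1 : c ≤ 1)
    (hyp : ∀ᶠ t in 𝓝[<] T, (T - t) ^ (-(1 / 2) : ℝ) < vmax (u t) →
      ∃ (s : ℝ) (Φ : ℝ → V → V) (x : V), 0 < s ∧ VortexFlow (u t) Φ ∧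
        c * (s * vmax (u t)) ≤ nrm (Φ s x - x) ∧ k * (T - t) ^ B ≤ nrm (Φ s x - x)) :
    (∃ C a : ℝ, a < 1 ∧ ∀ᶠ t in 𝓝[<] T, vmax (u t) ≤ C * (T - t) ^ (-a)) ∧ BKMFinite T u := by
  set lam : ℝ := 4 / c with hlam
  have hlam4 : 4 ≤ lam := by rw [hlam, le_div_iff₀ hc]; linarith
  have hcont : ∀ a b, a ≤ b → b < T → ContinuousOn (fun t => K * (T - t) ^ (-A)) (Icc a b) := by
    intro a b hab hb
    refine continuousOn_const.mul ?_
    refine ContinuousOn.rpow_const (by fun_prop) fun t ht => Or.inl ?_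
    have := ht.2
    intro h0
    linarith
  refine seg_criterion hT h (U := fun t => K * (T - t) ^ (-A)) (fun a b _ hab hb => ?_) hU
    (c := c) (θ := 1 / 2) (lam := lam) hc (by norm_num) (by linarith)
    (by rw [hlam]; field_simp; norm_num) ?_
  · refine ContinuousOn.intervalIntegrable ?_
    rw [uIcc_of_le hab]
    exact hcont a b hab hb
  · have hK0 : 0 ≤ |K| := abs_nonneg K
    -- eventually `|K| (lam - 1) ε^(1-A) ≤ (1/2) k ε^B`
    have hev : ∀ᶠ t in 𝓝[<] T, |K| * (lam - 1) * (T - t) ^ (1 - A - B) ≤ 1 / 2 * k := by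
      have h1 : Tendsto (fun t : ℝ => |K| * (lam - 1) * (T - t) ^ (1 - A - B)) (𝓝 T)
          (𝓝 (|K| * (lam - 1) * (T - T) ^ (1 - A - B))) := by
        refine Tendsto.const_mul _ ?_
        exact ((Real.continuousAt_rpow_const (T - T) (1 - A - B)
          (Or.inr (by linarith))).comp (f := fun t : ℝ => T - t) (x := T)
          (by fun_prop : Continuous fun t : ℝ => T - t).continuousAt)
      rw [sub_self, Real.zero_rpow (by linarith), mul_zero] at h1
      exact nhdsWithin_le_nhds ((h1.eventually (gt_mem_nhds (by positivity : (0:ℝ) < 1 / 2 * k))).mono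
        fun _ h => h.le)
    filter_upwards [hyp, hev, self_mem_nhdsWithin] with t h1 h2 h3 h4
    obtain ⟨s, Φ, x, hs, hΦ, h5, h6⟩ := h1 h4
    refine ⟨s, Φ, x, hs, hΦ, h5, ?_⟩
    have h3' : t < T := h3
    have hε : 0 < T - t := by linarith
    have hab : T - lam * (T - t) ≤ t := by nlinarith
    have h7 : ∫ τ in (T - lam * (T - t))..t, K * (T - τ) ^ (-A)
        ≤ ∫ _ in (T - lam * (T - t))..t, |K| * (T - t) ^ (-A) := by
      refine intervalIntegral.integral_mono_on hab ?_ (continuous_const.intervalIntegrable _ _)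
        fun τ hτ => ?_
      · refine ContinuousOn.intervalIntegrable ?_
        rw [uIcc_of_le hab]
        exact hcont _ _ hab h3'
      · have e1 : (T - τ) ^ (-A) ≤ (T - t) ^ (-A) :=
          Real.rpow_le_rpow_of_nonpos hε (by linarith [hτ.2]) (by linarith)
        have e2 : 0 ≤ (T - τ) ^ (-A) := Real.rpow_nonneg (by linarith [hτ.2]) _
        exact mul_le_mul (le_abs_self K) e1 e2 hK0
    rw [intervalIntegral.integral_const, smul_eq_mul] at h7
    refine h7.trans ?_
    have e3 : (t - (T - lam * (T - t))) * (|K| * (T - t) ^ (-A))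
        = (|K| * (lam - 1) * (T - t) ^ (1 - A - B)) * (T - t) ^ B := by
      have e4 : (T - t) ^ (1 - A - B) * (T - t) ^ B = (T - t) * (T - t) ^ (-A) := by
        have e5 : (T - t) * (T - t) ^ (-A) = (T - t) ^ (1 - A) := by
          rw [show (1 - A) = 1 + -A by ring, Real.rpow_add hε, Real.rpow_one]
        rw [e5, ← Real.rpow_add hε]
        ring_nf
      calc (t - (T - lam * (T - t))) * (|K| * (T - t) ^ (-A))
          = |K| * (lam - 1) * ((T - t) * (T - t) ^ (-A)) := by ring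
        _ = _ := by rw [← e4]; ring
    rw [e3]
    have e5 : 0 < (T - t) ^ B := Real.rpow_pos_of_pos hε B
    calc (|K| * (lam - 1) * (T - t) ^ (1 - A - B)) * (T - t) ^ B ≤ 1 / 2 * k * (T - t) ^ B := by
          gcongr
      _ = (1 - 1 / 2) * (k * (T - t) ^ B) := by ring
      _ ≤ (1 - 1 / 2) * nrm (Φ s x - x) := by gcongr

end Q177.EF
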