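import Pool.Agent.Q177.EF.Froz

/-!
# Cells, Cauchy-Schwarz, integrals
-/

set_option autoImplicit false

open MeasureTheory Set Topology Filter
open scoped NNReal ENNReal Pointwise

namespace Q177.EF

open Pool.Agent.H708R2.EulerSign Pool.Agent.H708R2.EulerTypeI Pool.Agent.GR.Flow
open Pool.Agent.W786.Dir

/-- The period cell with the corner `z`. -/
def cell (z : V) : Set V := {x | ∀ i, z i ≤ x i ∧ x i < z i + 2 * Real.pi}

lemma cell_zero : cell 0 = Dom := by
  ext x
  have h2 : (0 : ℝ) < 2 * Real.pi := by positivity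
  have hr : ∀ i, bas.repr x i = x i / (2 * Real.pi) := by
    intro i
    unfold bas
    rw [Module.Basis.repr_isUnitSMul, Pi.basisFun_repr]
    rw [Units.smul_def, smul_eq_mul, div_eq_inv_mul]
    congr 1
    rw [Units.val_inv_eq_inv_val]
    simp
  rw [ZSpan.mem_fundamentalDomain]
  unfold cell
  simp only [mem_ofPred_eq, mem_Ico, hr, Pi.zero_apply, zero_add]
  refine forall_congr' fun i => ?_
  rw [le_div_iff₀ h2, zero_mul, div_lt_one h2]

lemma cell_eq (z : V) : cell z = z +ᵥ Dom := by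
  rw [← cell_zero]
  ext x
  rw [Set.mem_vadd_set_iff_neg_vadd_mem]
  unfold cell
  simp only [mem_ofPred_eq, Pi.zero_apply, zero_add]
  refine forall_congr' fun i => ?_
  have : (-z +ᵥ x) i = x i - z i := by
    rw [vadd_eq_add, Pi.add_apply, Pi.neg_apply]; ring
  rw [this]
  constructor
  · rintro ⟨h1, h2⟩; constructor <;> linarith
  · rintro ⟨h1, h2⟩; constructor <;> linarith

lemma cell_fd (z : V) : IsAddFundamentalDomain Pool.Agent.H708R2.EulerSign.Lat (cell z) (volume : Measure V) := by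
  rw [cell_eq]
  exact dom_fd.vadd_of_comm z

lemma cell_meas (z : V) : MeasurableSet (cell z) := by
  rw [cell_eq]
  exact dom_meas.const_vadd z

lemma cell_vol (z : V) : volume (cell z) = volume Dom := (cell_fd z).measure_eq dom_fd

lemma cell_lt_top (z : V) : volume (cell z) < ∞ := by rw [cell_vol]; exact dom_lt_top

lemma per_vadd {f : V → ℝ} (hf : Periodic3 f) (g : Pool.Agent.H708R2.EulerSign.Lat) (x : V) : f (g +ᵥ x) = f x := by
  have h2 : (g +ᵥ x : V) = x + g := by rw [add_comm]; rfl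
  rw [h2, hf.lat g.2]

lemma integral_cell {f : V → ℝ} (hf : Periodic3 f) (z : V) :
    ∫ x in cell z, f x = ∫ x in Dom, f x :=
  (cell_fd z).setIntegral_eq dom_fd (per_vadd hf)

lemma per_intOn {f : V → ℝ} (hf : Periodic3 f) (hc : Continuous f) {E : Set V} {z : V}
    (hE : E ⊆ cell z) : IntegrableOn f E := by
  obtain ⟨C, -, hC⟩ := hf.bounded hc
  have : IntegrableOn f (cell z) :=
    Measure.integrableOn_of_bounded (cell_lt_top z).ne hc.aestronglyMeasurable
      (Filter.Eventually.of_forall hC)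
  exact this.mono_set hE

/-! ### Cauchy-Schwarz and the triangle inequality -/

lemma cs_interval {a b : ℝ} (hab : a ≤ b) {q : ℝ → ℝ} (hq : Continuous q) :
    (∫ τ in a..b, q τ) ^ 2 ≤ (b - a) * ∫ τ in a..b, q τ ^ 2 := by
  rcases hab.eq_or_lt with rfl | hlt
  · simp
  have hd : 0 < b - a := by linarith
  set I := ∫ τ in a..b, q τ with hI
  set m : ℝ := I / (b - a) with hm
  have h0 : 0 ≤ ∫ τ in a..b, (q τ - m) ^ 2 :=
    intervalIntegral.integral_nonneg hab fun _ _ => sq_nonneg _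
  have h1 : ∫ τ in a..b, (q τ - m) ^ 2
      = (∫ τ in a..b, q τ ^ 2) - 2 * m * I + m ^ 2 * (b - a) := by
    have e : ∀ τ, (q τ - m) ^ 2 = q τ ^ 2 - 2 * m * q τ + m ^ 2 := fun τ => by ring
    simp_rw [e]
    rw [intervalIntegral.integral_add, intervalIntegral.integral_sub,
      intervalIntegral.integral_const_mul, intervalIntegral.integral_const, smul_eq_mul]
    · ring
    · exact (hq.pow 2).intervalIntegrable _ _
    · exact (continuous_const.mul hq).intervalIntegrable _ _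
    · exact ((hq.pow 2).sub (continuous_const.mul hq)).intervalIntegrable _ _
    · exact continuous_const.intervalIntegrable _ _
  rw [h1] at h0
  have h2 : m * (b - a) = I := by rw [hm]; field_simp
  have h3 : 0 ≤ (b - a) * ((∫ τ in a..b, q τ ^ 2) - 2 * m * I + m ^ 2 * (b - a)) :=
    mul_nonneg hd.le h0
  nlinarith [h2, h3]

/-- The triangle inequality in `L²`. -/
lemma tri {s : Set V} {a b c : V → ℝ} (hs : MeasurableSet s) (ha0 : ∀ x ∈ s, 0 ≤ a x)
    (hle : ∀ x ∈ s, a x ≤ b x + c x)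
    (ha : IntegrableOn (fun x => a x ^ 2) s) (hb : IntegrableOn (fun x => b x ^ 2) s)
    (hc : IntegrableOn (fun x => c x ^ 2) s) {B C : ℝ} (hB : 0 ≤ B) (hC : 0 ≤ C)
    (hBi : ∫ x in s, b x ^ 2 ≤ B ^ 2) (hCi : ∫ x in s, c x ^ 2 ≤ C ^ 2) :
    Real.sqrt (∫ x in s, a x ^ 2) ≤ B + C := by
  refine le_of_forall_pos_le_add fun ε hε => ?_
  set B' := B + ε / 2 with hB'
  set C' := C + ε / 2 with hC'
  have hB'0 : 0 < B' := by positivity
  have hC'0 : 0 < C' := by positivity
  have key : ∫ x in s, a x ^ 2 ≤ (B' + C') * (B ^ 2 / B' + C ^ 2 / C') := by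
    have h1 : ∀ x ∈ s, a x ^ 2 ≤ (B' + C') * (1 / B' * b x ^ 2 + 1 / C' * c x ^ 2) := by
      intro x hx
      have h2 := hle x hx
      have h3 := ha0 x hx
      have h4 : a x ^ 2 ≤ (b x + c x) ^ 2 := pow_le_pow_left₀ h3 h2 2
      refine h4.trans ?_
      have h5 : (B' + C') * (1 / B' * b x ^ 2 + 1 / C' * c x ^ 2) - (b x + c x) ^ 2
          = (C' * b x - B' * c x) ^ 2 / (B' * C') := by
        field_simp
        ring
      have h6 : 0 ≤ (C' * b x - B' * c x) ^ 2 / (B' * C') := by positivity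
      linarith
    have h2 : ∫ x in s, a x ^ 2 ≤ ∫ x in s, (B' + C') * (1 / B' * b x ^ 2 + 1 / C' * c x ^ 2) :=
      setIntegral_mono_on ha (((hb.const_mul _).add (hc.const_mul _)).const_mul _) hs h1
    refine h2.trans ?_
    rw [integral_const_mul, integral_add (hb.const_mul _) (hc.const_mul _), integral_const_mul,
      integral_const_mul]
    refine mul_le_mul_of_nonneg_left ?_ (by positivity)
    have e1 : 1 / B' * ∫ x in s, b x ^ 2 ≤ B ^ 2 / B' := by
      rw [one_div, div_eq_inv_mul]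
      exact mul_le_mul_of_nonneg_left hBi (by positivity)
    have e2 : 1 / C' * ∫ x in s, c x ^ 2 ≤ C ^ 2 / C' := by
      rw [one_div, div_eq_inv_mul]
      exact mul_le_mul_of_nonneg_left hCi (by positivity)
    linarith
  have e1 : B ^ 2 / B' ≤ B' := by
    rw [div_le_iff₀ hB'0]
    nlinarith
  have e2 : C ^ 2 / C' ≤ C' := by
    rw [div_le_iff₀ hC'0]
    nlinarith
  have h5 : ∫ x in s, a x ^ 2 ≤ (B' + C') ^ 2 := by
    refine key.trans ?_
    rw [sq (B' + C')]
    exact mul_le_mul_of_nonneg_left (by linarith) (by positivity)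
  have h6 : Real.sqrt (∫ x in s, a x ^ 2) ≤ B' + C' :=
    Real.sqrt_le_iff.2 ⟨by positivity, h5⟩
  rw [hB', hC'] at h6
  linarith

/-- Cauchy-Schwarz on a set. -/
lemma cs_set {s : Set V} {c : V → ℝ} {C : ℝ} (hC : 0 ≤ C)
    (hvol : volume s ≠ ∞) (hc1 : IntegrableOn c s) (hc : IntegrableOn (fun x => c x ^ 2) s)
    (hCi : ∫ x in s, c x ^ 2 ≤ C ^ 2) :
    ∫ x in s, c x ≤ Real.sqrt (volume s).toReal * C := by
  set m := (volume s).toReal with hm
  have hm0 : 0 ≤ m := ENNReal.toReal_nonneg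
  refine le_of_forall_pos_le_add fun ε hε => ?_
  set r : ℝ := Real.sqrt m with hr
  have hr0 : 0 ≤ r := Real.sqrt_nonneg _
  have hr2 : r ^ 2 = m := Real.sq_sqrt hm0
  have main : ∀ θ : ℝ, 0 < θ → ∫ x in s, c x ≤ (θ * C ^ 2 + m / θ) / 2 := by
    intro θ hθ
    have h1 : ∀ x, c x ≤ θ / 2 * c x ^ 2 + 1 / (2 * θ) := by
      intro x
      have h2 : θ / 2 * c x ^ 2 + 1 / (2 * θ) - c x = (θ * c x - 1) ^ 2 / (2 * θ) := by
        field_simp
        ring
      have h3 : 0 ≤ (θ * c x - 1) ^ 2 / (2 * θ) := by positivity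
      linarith
    have hconst : IntegrableOn (fun _ : V => 1 / (2 * θ)) s := integrableOn_const hvol
    have h2 : ∫ x in s, c x ≤ ∫ x in s, (θ / 2 * c x ^ 2 + 1 / (2 * θ)) :=
      integral_mono hc1 ((hc.const_mul _).add hconst) h1
    rw [integral_add (hc.const_mul _) hconst, integral_const_mul] at h2
    have h3 : ∫ _ in s, 1 / (2 * θ) ∂(volume : Measure V) = m / (2 * θ) := by
      rw [setIntegral_const, smul_eq_mul, hm, Measure.real]
      ring
    rw [h3] at h2
    have h4 : θ / 2 * ∫ x in s, c x ^ 2 ≤ θ / 2 * C ^ 2 :=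
      mul_le_mul_of_nonneg_left hCi (by positivity)
    have h5 : (θ * C ^ 2 + m / θ) / 2 = θ / 2 * C ^ 2 + m / (2 * θ) := by
      field_simp
    rw [h5]
    linarith
  -- choose `θ = (r + δ) / (C + δ)`
  obtain ⟨δ, hδ, hδε⟩ : ∃ δ : ℝ, 0 < δ ∧ (r + δ) * (C + δ) ≤ r * C + ε := by
    have hcont : Continuous (fun δ : ℝ => (r + δ) * (C + δ)) := by fun_prop
    have h1 := hcont.tendsto 0
    simp only [add_zero] at h1
    have h2 := h1.eventually (gt_mem_nhds (show r * C < r * C + ε by linarith))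
    obtain ⟨δ, hδ, h⟩ := Metric.eventually_nhds_iff.1 h2
    refine ⟨δ / 2, by positivity, (h ?_).le⟩
    rw [Real.dist_eq, sub_zero, abs_of_pos (by positivity)]
    linarith
  have hCδ : 0 < C + δ := by linarith
  have hrδ : 0 < r + δ := by linarith
  have h1 := main ((r + δ) / (C + δ)) (by positivity)
  refine h1.trans (le_trans ?_ hδε)
  have h2 : (r + δ) / (C + δ) * C ^ 2 ≤ (r + δ) * (C + δ) := by
    rw [div_mul_eq_mul_div, div_le_iff₀ hCδ]
    have : C ^ 2 ≤ (C + δ) ^ 2 := pow_le_pow_left₀ hC (by linarith) 2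
    nlinarith
  have h3 : m / ((r + δ) / (C + δ)) ≤ (r + δ) * (C + δ) := by
    rw [div_div_eq_mul_div, div_le_iff₀ hrδ, ← hr2]
    have : r ^ 2 ≤ (r + δ) ^ 2 := pow_le_pow_left₀ hr0 (by linarith) 2
    nlinarith
  linarith

/-- Fubini for a continuous function. -/
lemma swap {a b : ℝ} (hab : a ≤ b) {F : ℝ × V → ℝ} (hF : Continuous F) :
    ∫ x in Dom, ∫ τ in a..b, F (τ, x) = ∫ τ in a..b, ∫ x in Dom, F (τ, x) := by
  simp only [intervalIntegral.integral_of_le hab]
  refine integral_integral_swap (f := fun (x : V) (τ : ℝ) => F (τ, x)) ?_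
  have hK : IsCompact (closure Dom ×ˢ Icc a b) := dom_bdd.isCompact_closure.prod isCompact_Icc
  have h1 : IntegrableOn (fun q : V × ℝ => F (q.2, q.1)) (closure Dom ×ˢ Icc a b)
      (volume.prod volume) :=
    (hF.comp (by fun_prop)).continuousOn.integrableOn_compact hK
  have h2 := h1.mono_set (s := Dom ×ˢ Ioc a b) (prod_mono subset_closure Ioc_subset_Icc_self)
  unfold IntegrableOn at h2
  rw [← Measure.prod_restrict] at h2
  exact h2

/-! ### The Euclidean norm -/

lemma nrm_le_of_dot {y : V} {C : ℝ} (hC : 0 ≤ C) (h : ∀ e : V, nrm e = 1 → e ⬝ᵥ y ≤ C) :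
    nrm y ≤ C := by
  by_cases h0 : y = 0
  · rw [h0]
    have : nrm (0 : V) = 0 := by unfold nrm; simp
    rw [this]; exact hC
  have hp := nrm_pos h0
  have h1 := h ((nrm y)⁻¹ • y) (by rw [nrm_smul, abs_of_pos (by positivity)]; field_simp)
  rw [smul_dotProduct, ← nrm_sq, smul_eq_mul] at h1
  have : (nrm y)⁻¹ * nrm y ^ 2 = nrm y := by field_simp
  linarith

lemma dot_le_nrm {e : V} (he : nrm e = 1) (y : V) : e ⬝ᵥ y ≤ nrm y := by
  have := (le_abs_self _).trans (dot_le e y)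
  rwa [he, one_mul] at this

lemma nrm_add_le (x y : V) : nrm (x + y) ≤ nrm x + nrm y := by
  rw [nrm_eq, nrm_eq, nrm_eq]
  exact norm_add_le (WithLp.toLp 2 x : EuclideanSpace ℝ (Fin 3)) (WithLp.toLp 2 y)

lemma nrm_sub_le (x y : V) : nrm (x - y) ≤ nrm x + nrm y := by
  rw [nrm_eq, nrm_eq, nrm_eq]
  exact norm_sub_le (WithLp.toLp 2 x : EuclideanSpace ℝ (Fin 3)) (WithLp.toLp 2 y)

lemma dot_hasDerivAt (e : V) {f : ℝ → V} {f' : V} {t : ℝ} (hf : HasDerivAt f f' t) :
    HasDerivAt (fun t => e ⬝ᵥ f t) (e ⬝ᵥ f') t := by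
  have h := fun i => (hasDerivAt_pi.1 hf i).const_mul (e i)
  exact (HasDerivAt.fun_sum fun i (_ : i ∈ Finset.univ) => h i).congr_deriv rfl

/-- The Euclidean norm of an increment. -/
lemma nrm_incr {f f' : ℝ → V} {q : ℝ → ℝ} {a b : ℝ} (hab : a ≤ b)
    (hf : ∀ t, HasDerivAt f (f' t) t) (hfc : Continuous f') (hq : Continuous q)
    (h : ∀ t ∈ Icc a b, nrm (f' t) ≤ q t) : nrm (f b - f a) ≤ ∫ t in a..b, q t := by
  refine nrm_le_of_dot (intervalIntegral.integral_nonneg hab fun t ht =>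
    (nrm_nonneg _).trans (h t ht)) fun e he => ?_
  have hc : Continuous fun t => e ⬝ᵥ f' t := by
    simp only [dotProduct]; fun_prop
  have h1 : ∫ t in a..b, e ⬝ᵥ f' t = e ⬝ᵥ f b - e ⬝ᵥ f a :=
    intervalIntegral.integral_eq_sub_of_hasDerivAt (fun t _ => dot_hasDerivAt e (hf t))
      (hc.intervalIntegrable _ _)
  rw [dotProduct_sub, ← h1]
  refine intervalIntegral.integral_mono_on hab (hc.intervalIntegrable _ _)
    (hq.intervalIntegrable _ _) fun t ht => (dot_le_nrm he _).trans (h t ht)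

end Q177.EF
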